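import Mathlib

/-!
# Trees whose domination and certified domination numbers agree

We give a constructive characterization of the trees `T` with `gammaCer T = gamma T`.
A tree of order at least two has this property exactly when it can be built from a path on three
vertices by four local operations, each of which attaches a leaf, an edge, a star `K_{1,2}` or a
path `P_3` to one vertex `u`. The operations act on trees labelled by two vertex sets: the
set `D` of centres and the set `P` of marks. Whether an operation may be applied at `u`
depends only on whether `u` is a centre, whether it is marked, and whether it has a marked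
neighbour.

The proof: along the construction `D` stays a dominating set in which every vertex has two
neighbours outside `D`, and `P` stays a 2-packing with as many elements as `D`, so that `D` is
a minimum dominating set (`sound`). Conversely, by the theorem of Meir and Moon (`meir_moon`),
a certified minimum dominating set `D` has as many elements as some 2-packing `P`, and a tree with
such a pair `(D, P)` can be taken apart from a deepest leaf (`complete`).
-/

namespace Pool.Agent.Results.MP_b206e4_co.TreeCharacterization

variable {V : Type*} [Fintype V] [DecidableEq V]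

/-- `D` is a dominating set of `G`: each vertex outside `D` has a neighbour in `D`. -/
def IsDominating (G : SimpleGraph V) (D : Finset V) : Prop := ∀ v, v ∉ D → ∃ d ∈ D, G.Adj v d

/-- `D` is a certified dominating set of `G`: it is dominating and each vertex of `D` has either
no neighbour or at least two neighbours outside `D`. -/
def IsCertified (G : SimpleGraph V) (D : Finset V) : Prop :=
  IsDominating G D ∧ ∀ v ∈ D, {u | G.Adj v u ∧ u ∉ D}.ncard = 0 ∨ 2 ≤ {u | G.Adj v u ∧ u ∉ D}.ncard

/-- The domination number: the minimum size of a dominating set. -/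
noncomputable def gamma (G : SimpleGraph V) : ℕ :=
  sInf {k | ∃ D : Finset V, IsDominating G D ∧ D.card = k}

/-- The certified domination number: the minimum size of a certified dominating set. -/
noncomputable def gammaCer (G : SimpleGraph V) : ℕ :=
  sInf {k | ∃ D : Finset V, IsCertified G D ∧ D.card = k}

/-- `u` is at distance at least two from every vertex of `P`. -/
def Far (G : SimpleGraph V) (P : Finset V) (u : V) : Prop := u ∉ P ∧ ∀ p ∈ P, ¬ G.Adj u p

/-- `Constructible G S D P`: the subgraph of `G` induced on `S`, with set of centres `D` and set of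
marks `P`, is obtained from a path on three vertices by operations of the four kinds below. -/
inductive Constructible (G : SimpleGraph V) : Finset V → Finset V → Finset V → Prop
  /-- Start: a path on three vertices `y, x, z`; its centre is the middle vertex `x`, and one of
  its vertices is marked. -/
  | base (x y z q : V) : y ≠ z → G.Adj x y → G.Adj x z → ¬ G.Adj y z → q ∈ ({x, y, z} : Finset V) →
      Constructible G {x, y, z} {x} {q}
  /-- Attach a new leaf `y` to a centre `u`. -/
  | addLeaf (S D P : Finset V) (u y : V) : Constructible G S D P → u ∈ D → y ∉ S →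
      (∀ s ∈ S, G.Adj s y ↔ s = u) → Constructible G (insert y S) D P
  /-- Attach to a vertex `u` that is no centre a new edge `x y` by the edge `u x`; `x` becomes a
  centre, and the new mark is `x` (if `u` is at distance at least two from all marks) or `y` (if
  `u` is not marked). -/
  | addEdge (S D P : Finset V) (u x y q : V) : Constructible G S D P → u ∈ S → u ∉ D →
      x ∉ S → y ∉ S → G.Adj x y →
      (∀ s ∈ S, G.Adj s x ↔ s = u) → (∀ s ∈ S, ¬ G.Adj s y) →
      ((q = x ∧ Far G P u) ∨ (q = y ∧ u ∉ P)) →
      Constructible G (S ∪ {x, y}) (insert x D) (insert q P)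
  /-- Attach to an unmarked centre `u` a new star with middle vertex `x` and leaves `y, z` by the
  edge `u x`; `x` becomes a centre and `y` is marked. -/
  | addStar (S D P : Finset V) (u x y z : V) : Constructible G S D P → u ∈ D → u ∉ P →
      x ∉ S → y ∉ S → z ∉ S → y ≠ z → G.Adj x y → G.Adj x z → ¬ G.Adj y z →
      (∀ s ∈ S, G.Adj s x ↔ s = u) → (∀ s ∈ S, ¬ G.Adj s y) → (∀ s ∈ S, ¬ G.Adj s z) →
      Constructible G (S ∪ {x, y, z}) (insert x D) (insert y P)
  /-- Attach to a vertex `u` that is no centre a new path `y, x, z` by the edge `u y`; `x` becomes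
  a centre, and the new mark is `y` (if `u` is at distance at least two from all marks), `x` (if
  `u` is not marked) or `z`. -/
  | addPath (S D P : Finset V) (u x y z q : V) : Constructible G S D P → u ∈ S → u ∉ D →
      x ∉ S → y ∉ S → z ∉ S → y ≠ z → G.Adj x y → G.Adj x z → ¬ G.Adj y z →
      (∀ s ∈ S, G.Adj s y ↔ s = u) → (∀ s ∈ S, ¬ G.Adj s x) → (∀ s ∈ S, ¬ G.Adj s z) →
      ((q = y ∧ Far G P u) ∨ (q = x ∧ u ∉ P) ∨ q = z) →
      Constructible G (S ∪ {x, y, z}) (insert x D) (insert q P)

/-- `P` is a 2-packing of the subgraph induced on `S`. -/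
def IsTwoPacking (G : SimpleGraph V) (S P : Finset V) : Prop :=
  P ⊆ S ∧ ∀ p ∈ P, ∀ q ∈ P, ∀ v ∈ S, (v = p ∨ G.Adj v p) → (v = q ∨ G.Adj v q) → p = q

/-- Auxiliary form of `Constructible`, with the packing condition stated globally. -/
inductive Constr0 (G : SimpleGraph V) : Finset V → Finset V → Finset V → Prop
  | base (x y z q : V) : y ≠ z → G.Adj x y → G.Adj x z → ¬ G.Adj y z → (q = x ∨ q = y) →
      Constr0 G {x, y, z} {x} {q}
  | addLeaf (S D P : Finset V) (u z : V) : Constr0 G S D P → u ∈ D → z ∉ S →
      (∀ s ∈ S, G.Adj s z ↔ s = u) → Constr0 G (insert z S) D P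
  | addEdge (S D P : Finset V) (u x y q : V) : Constr0 G S D P → u ∈ S → u ∉ D →
      x ∉ S → y ∉ S → G.Adj x y →
      (∀ s ∈ S, G.Adj s x ↔ s = u) → (∀ s ∈ S, ¬ G.Adj s y) →
      q ∈ ({x, y} : Finset V) → IsTwoPacking G (S ∪ {x, y}) (insert q P) →
      Constr0 G (S ∪ {x, y}) (insert x D) (insert q P)
  | addStar (S D P : Finset V) (u x y z q : V) : Constr0 G S D P → u ∈ D →
      x ∉ S → y ∉ S → z ∉ S → y ≠ z → G.Adj x y → G.Adj x z → ¬ G.Adj y z →
      (∀ s ∈ S, G.Adj s x ↔ s = u) → (∀ s ∈ S, ¬ G.Adj s y) → (∀ s ∈ S, ¬ G.Adj s z) →
      q ∈ ({x, y, z} : Finset V) → IsTwoPacking G (S ∪ {x, y, z}) (insert q P) →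
      Constr0 G (S ∪ {x, y, z}) (insert x D) (insert q P)
  | addPath (S D P : Finset V) (u x y z q : V) : Constr0 G S D P → u ∈ S → u ∉ D →
      x ∉ S → y ∉ S → z ∉ S → y ≠ z → G.Adj x y → G.Adj x z → ¬ G.Adj y z →
      (∀ s ∈ S, G.Adj s z ↔ s = u) → (∀ s ∈ S, ¬ G.Adj s x) → (∀ s ∈ S, ¬ G.Adj s y) →
      q ∈ ({x, y, z} : Finset V) → IsTwoPacking G (S ∪ {x, y, z}) (insert q P) →
      Constr0 G (S ∪ {x, y, z}) (insert x D) (insert q P)

/-- rooted tree structure -/
structure Rooted (G : SimpleGraph V) (r : V) (par : V → V) (dep : V → ℕ) : Prop where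
  adj_par : ∀ v, v ≠ r → G.Adj v (par v)
  dep_par : ∀ v, v ≠ r → dep v = dep (par v) + 1
  adj_iff : ∀ u v, G.Adj u v → (u ≠ r ∧ par u = v) ∨ (v ≠ r ∧ par v = u)
  dep_r : dep r = 0

omit [Fintype V] [DecidableEq V] in
theorem unique_down {G : SimpleGraph V} (hG : G.IsTree) {r u v w : V} (huv : G.Adj u v) (huw : G.Adj u w)
    (h1 : G.dist r u = G.dist r v + 1) (h2 : G.dist r u = G.dist r w + 1) : v = w := by
  obtain ⟨p, hp⟩ := hG.connected.exists_walk_length_eq_dist r v
  obtain ⟨q, hq⟩ := hG.connected.exists_walk_length_eq_dist r w
  have hp2 : (p.concat huv.symm).IsPath := by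
    apply SimpleGraph.Walk.isPath_of_length_eq_dist
    rw [SimpleGraph.Walk.length_concat, hp, h1]
  have hq2 : (q.concat huw.symm).IsPath := by
    apply SimpleGraph.Walk.isPath_of_length_eq_dist
    rw [SimpleGraph.Walk.length_concat, hq, h2]
  have := (hG.existsUnique_path r u).unique hp2 hq2
  have h3 := congrArg (fun x => x.penultimate) this
  simpa using h3

omit [Fintype V] [DecidableEq V] in
theorem exists_rooted {G : SimpleGraph V} (hG : G.IsTree) (r : V) :
    ∃ par dep, Rooted G r par dep := by
  classical
  have hex : ∀ v, v ≠ r → ∃ w, G.Adj v w ∧ G.dist r v = G.dist r w + 1 := by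
    intro v hv
    obtain ⟨p, hp⟩ := hG.connected.exists_walk_length_eq_dist v r
    cases p with
    | nil => exact absurd rfl hv
    | cons h q =>
      rename_i w
      refine ⟨w, h, ?_⟩
      rcases hG.dist_eq_dist_add_one_of_adj r h with h1 | h1
      · exact h1
      · rw [SimpleGraph.Walk.length_cons] at hp
        have h2 := SimpleGraph.dist_le q
        rw [G.dist_comm] at h2
        rw [G.dist_comm] at hp
        omega
  choose! par hpar1 hpar2 using hex
  refine ⟨par, fun v => G.dist r v, ⟨hpar1, hpar2, ?_, by simp⟩⟩
  intro u v huv
  rcases hG.dist_eq_dist_add_one_of_adj r huv with h1 | h1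
  · left
    have hur : u ≠ r := by
      rintro rfl
      rw [SimpleGraph.dist_self] at h1
      omega
    exact ⟨hur, unique_down hG (hpar1 u hur) huv (hpar2 u hur) h1⟩
  · right
    have hvr : v ≠ r := by
      rintro rfl
      rw [SimpleGraph.dist_self] at h1
      omega
    exact ⟨hvr, unique_down hG (hpar1 v hvr) huv.symm (hpar2 v hvr) h1⟩


/-- parent-closed sets -/
def Closed (r : V) (par : V → V) (S : Finset V) : Prop := r ∈ S ∧ ∀ v ∈ S, v ≠ r → par v ∈ S

section rooted

variable {G : SimpleGraph V} {r : V} {par : V → V} {dep : V → ℕ}

omit [Fintype V] [DecidableEq V] in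
theorem Rooted.par_ne_self (hR : Rooted G r par dep) {v : V} (hv : v ≠ r) : par v ≠ v :=
  fun h => (hR.adj_par v hv).ne h.symm

omit [Fintype V] [DecidableEq V] in
/-- a vertex of maximal depth is adjacent only to its parent -/
theorem Rooted.deepest (hR : Rooted G r par dep) {S : Finset V} {v : V}
    (hmax : ∀ s ∈ S, dep s ≤ dep v) {s : V} (hs : s ∈ S) (hadj : G.Adj v s) : v ≠ r ∧ par v = s := by
  rcases hR.adj_iff v s hadj with h | h
  · exact h
  · have := hR.dep_par s h.1
    rw [h.2] at this
    have := hmax s hs
    omega

omit [Fintype V] [DecidableEq V] in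
theorem Rooted.eq_root_of_dep (hR : Rooted G r par dep) {S : Finset V} (hmax : ∀ s ∈ S, dep s ≤ dep r)
    {s : V} (hs : s ∈ S) : s = r := by
  by_contra h
  have h1 := hR.dep_par s h
  have h2 := hmax s hs
  rw [hR.dep_r] at h2
  omega

/-- the inductive form of the theorem of Meir and Moon -/
theorem meir_moon (hR : Rooted G r par dep) : ∀ (n : ℕ) (S U : Finset V), S.card = n →
    Closed r par S → U ⊆ S → ∃ D P : Finset V, D ⊆ S ∧ P ⊆ U ∧
      (∀ u ∈ U, ∃ d ∈ D, d = u ∨ G.Adj d u) ∧
      (∀ p ∈ P, ∀ q ∈ P, ∀ v ∈ S, (v = p ∨ G.Adj v p) → (v = q ∨ G.Adj v q) → p = q) ∧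
      D.card ≤ P.card := by
  classical
  intro n
  induction n using Nat.strong_induction_on with
  | _ n ih =>
    intro S U hcard hcl hUS
    obtain ⟨v0, hv0S, hmax⟩ := Finset.exists_max_image S dep ⟨r, hcl.1⟩
    by_cases hv0r : v0 = r
    · subst hv0r
      have hall : ∀ s ∈ S, s = v0 := fun s hs => hR.eq_root_of_dep hmax hs
      by_cases hU : v0 ∈ U
      · refine ⟨{v0}, {v0}, by simpa using hcl.1, by simpa using hU, ?_, ?_, le_refl _⟩
        · intro u hu
          exact ⟨v0, by simp, Or.inl (hall u (hUS hu)).symm⟩
        · intro p hp q hq _ _ _ _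
          rw [Finset.mem_singleton] at hp hq
          rw [hp, hq]
      · refine ⟨∅, ∅, by simp, by simp, ?_, by simp, le_refl _⟩
        intro u hu
        exact absurd (hall u (hUS hu) ▸ hu) hU
    · set v1 := par v0 with hv1
      have hv1S : v1 ∈ S := hcl.2 v0 hv0S hv0r
      have hadj01 : G.Adj v0 v1 := hR.adj_par v0 hv0r
      have hd1 : dep v0 = dep v1 + 1 := hR.dep_par v0 hv0r
      -- neighbours of vertices of maximal depth
      have hleaf : ∀ c ∈ S, dep c = dep v0 → ∀ s ∈ S, G.Adj c s → c ≠ r ∧ par c = s := by
        intro c _ hdc s hs hadj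
        exact hR.deepest (S := S) (fun s hs => by rw [hdc]; exact hmax s hs) hs hadj
      by_cases hU : v0 ∈ U
      · -- remove all children of `v1`
        set C := S.filter (fun s => s ≠ r ∧ par s = v1) with hC
        have hCmem : ∀ c, c ∈ C ↔ c ∈ S ∧ c ≠ r ∧ par c = v1 := by
          intro c; rw [hC, Finset.mem_filter]
        have hCdep : ∀ c ∈ C, dep c = dep v0 := by
          intro c hc
          rw [hCmem] at hc
          have := hR.dep_par c hc.2.1
          rw [hc.2.2] at this; omega
        set S' := S \ C with hS'
        set U' := U.filter (fun u => u ∉ C ∧ u ≠ v1 ∧ ¬ G.Adj u v1) with hU'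
        have hU'mem : ∀ u, u ∈ U' ↔ u ∈ U ∧ u ∉ C ∧ u ≠ v1 ∧ ¬ G.Adj u v1 := by
          intro u; rw [hU', Finset.mem_filter]
        have hv0C : v0 ∈ C := (hCmem v0).2 ⟨hv0S, hv0r, rfl⟩
        have hlt : S'.card < n := by
          rw [← hcard]
          apply Finset.card_lt_card
          refine ⟨Finset.sdiff_subset, fun h => ?_⟩
          exact (Finset.mem_sdiff.1 (h hv0S)).2 hv0C
        have hcl' : Closed r par S' := by
          refine ⟨Finset.mem_sdiff.2 ⟨hcl.1, fun h => ((hCmem r).1 h).2.1 rfl⟩, ?_⟩
          intro v hv hvr
          rw [Finset.mem_sdiff] at hv ⊢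
          refine ⟨hcl.2 v hv.1 hvr, fun h => ?_⟩
          have h1 := hCdep _ h
          have h2 := hR.dep_par v hvr
          have h3 := hmax v hv.1
          omega
        have hU'S' : U' ⊆ S' := by
          intro u hu
          rw [hU'mem] at hu
          exact Finset.mem_sdiff.2 ⟨hUS hu.1, hu.2.1⟩
        obtain ⟨D', P', hD', hP', hdom, hpack, hc⟩ := ih _ hlt S' U' rfl hcl' hU'S'
        have hv0P' : v0 ∉ P' := fun h => ((hU'mem v0).1 (hP' h)).2.1 hv0C
        refine ⟨insert v1 D', insert v0 P', ?_, ?_, ?_, ?_, ?_⟩
        · intro d hd
          rw [Finset.mem_insert] at hd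
          rcases hd with rfl | hd
          · exact hv1S
          · exact (Finset.mem_sdiff.1 (hD' hd)).1
        · intro p hp
          rw [Finset.mem_insert] at hp
          rcases hp with rfl | hp
          · exact hU
          · exact ((hU'mem p).1 (hP' hp)).1
        · intro u hu
          by_cases h1 : u ∈ U'
          · obtain ⟨d, hd, h2⟩ := hdom u h1
            exact ⟨d, Finset.mem_insert_of_mem hd, h2⟩
          · refine ⟨v1, Finset.mem_insert_self _ _, ?_⟩
            rw [hU'mem] at h1
            by_cases h2 : u ∈ C
            · right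
              have h3 := (hCmem u).1 h2
              have := hR.adj_par u h3.2.1
              rw [h3.2.2] at this
              exact this.symm
            · by_cases h3 : u = v1
              · exact Or.inl h3.symm
              · right
                by_contra h4
                exact h1 ⟨hu, h2, h3, fun h5 => h4 h5.symm⟩
        · have key : ∀ q ∈ P', ∀ v ∈ S, (v = v0 ∨ G.Adj v v0) → (v = q ∨ G.Adj v q) → v0 = q := by
            intro q hq v hv h1 h2
            exfalso
            have hq' := (hU'mem q).1 (hP' hq)
            have hqS := hUS hq'.1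
            rcases h1 with rfl | h1
            · rcases h2 with rfl | h2
              · exact hv0P' hq
              · have := (hleaf v hv0S rfl q hqS h2).2
                exact hq'.2.2.1 (by rw [hv1, this])
            · have h3 := (hleaf v0 hv0S rfl v hv h1.symm).2
              have hvv1 : v = v1 := by rw [hv1, h3]
              rw [hvv1] at h2
              rcases h2 with h2 | h2
              · exact hq'.2.2.1 h2.symm
              · exact hq'.2.2.2 h2.symm
          intro p hp q hq v hv h1 h2
          rw [Finset.mem_insert] at hp hq
          rcases hp with rfl | hp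
          · rcases hq with rfl | hq
            · rfl
            · exact key q hq v hv h1 h2
          · rcases hq with rfl | hq
            · exact (key p hp v hv h2 h1).symm
            · by_cases h3 : v ∈ S'
              · exact hpack p hp q hq v h3 h1 h2
              · exfalso
                have hvC : v ∈ C := by
                  by_contra h4; exact h3 (Finset.mem_sdiff.2 ⟨hv, h4⟩)
                have hp' := (hU'mem p).1 (hP' hp)
                rcases h1 with rfl | h1
                · exact hp'.2.1 hvC
                · have := (hleaf v hv (hCdep v hvC) p (hUS hp'.1) h1).2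
                  rw [((hCmem v).1 hvC).2.2] at this
                  exact hp'.2.2.1 this.symm
        · rw [Finset.card_insert_of_notMem hv0P']
          exact (Finset.card_insert_le _ _).trans (Nat.add_le_add_right hc 1)
      · -- remove `v0`
        set S' := S.erase v0 with hS'
        have hlt : S'.card < n := by
          rw [← hcard]; exact Finset.card_erase_lt_of_mem hv0S
        have hcl' : Closed r par S' := by
          refine ⟨Finset.mem_erase.2 ⟨fun h => hv0r h.symm, hcl.1⟩, ?_⟩
          intro v hv hvr
          rw [Finset.mem_erase] at hv ⊢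
          refine ⟨fun h => ?_, hcl.2 v hv.2 hvr⟩
          have h2 := hR.dep_par v hvr
          have h3 := hmax v hv.2
          rw [h] at h2; omega
        have hUS' : U ⊆ S' := by
          intro u hu
          exact Finset.mem_erase.2 ⟨fun h => hU (h ▸ hu), hUS hu⟩
        obtain ⟨D', P', hD', hP', hdom, hpack, hc⟩ := ih _ hlt S' U rfl hcl' hUS'
        refine ⟨D', P', hD'.trans (Finset.erase_subset _ _), hP', hdom, ?_, hc⟩
        intro p hp q hq v hv h1 h2
        by_cases h3 : v = v0
        · subst h3
          have hp1 : p = v1 := by
            rcases h1 with rfl | h1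
            · exact absurd (hP' hp) hU
            · rw [hv1, (hleaf v hv rfl p (hUS (hP' hp)) h1).2]
          have hq1 : q = v1 := by
            rcases h2 with rfl | h2
            · exact absurd (hP' hq) hU
            · rw [hv1, (hleaf v hv rfl q (hUS (hP' hq)) h2).2]
          rw [hp1, hq1]
        · exact hpack p hp q hq v (Finset.mem_erase.2 ⟨h3, hv⟩) h1 h2

end rooted

omit [Fintype V] in
/-- a packing is at most as large as a dominating set -/
theorem pack_le_dom {G : SimpleGraph V} {S D P : Finset V} (hP : IsTwoPacking G S P) (hDS : D ⊆ S)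
    (hdom : ∀ v ∈ P, v ∉ D → ∃ d ∈ D, G.Adj v d) : ∃ f : V → V, (∀ p ∈ P, f p ∈ D ∧ (f p = p ∨ G.Adj (f p) p)) ∧
      Set.InjOn f P := by
  have hex : ∀ p ∈ P, ∃ d ∈ D, (d = p ∨ G.Adj d p) := by
    intro p hp
    by_cases h : p ∈ D
    · exact ⟨p, h, Or.inl rfl⟩
    · obtain ⟨d, hd, h1⟩ := hdom p hp h
      exact ⟨d, hd, Or.inr h1.symm⟩
  choose! f hf1 hf2 using hex
  refine ⟨f, fun p hp => ⟨hf1 p hp, hf2 p hp⟩, ?_⟩
  intro p hp q hq hpq
  refine hP.2 p hp q hq (f p) (hDS (hf1 p hp)) (hf2 p hp) ?_
  rw [hpq]; exact hf2 q hq

/-- the local form of the labelling -/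
structure Valid (G : SimpleGraph V) (S D P : Finset V) : Prop where
  DS : D ⊆ S
  dom : ∀ v ∈ S, v ∉ D → ∃ d ∈ D, G.Adj v d
  pack : IsTwoPacking G S P
  exP : ∀ d ∈ D, ∃ p ∈ P, (d = p ∨ G.Adj d p)
  oneD : ∀ p ∈ P, ∀ d ∈ D, ∀ d' ∈ D, (d = p ∨ G.Adj d p) → (d' = p ∨ G.Adj d' p) → d = d'
  two : ∀ d ∈ D, ∃ a ∈ S, ∃ b ∈ S, a ≠ b ∧ a ∉ D ∧ b ∉ D ∧ G.Adj d a ∧ G.Adj d b

omit [Fintype V] in
theorem valid_of_card {G : SimpleGraph V} {S D P : Finset V} (hDS : D ⊆ S)
    (hdom : ∀ v ∈ S, v ∉ D → ∃ d ∈ D, G.Adj v d) (hP : IsTwoPacking G S P) (hc : D.card ≤ P.card)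
    (htwo : ∀ d ∈ D, ∃ a ∈ S, ∃ b ∈ S, a ≠ b ∧ a ∉ D ∧ b ∉ D ∧ G.Adj d a ∧ G.Adj d b) :
    Valid G S D P := by
  obtain ⟨f, hf, hinj⟩ := pack_le_dom hP hDS (fun v hv h => hdom v (hP.1 hv) h)
  have himg : P.image f = D := by
    apply Finset.eq_of_subset_of_card_le
    · intro d hd
      rw [Finset.mem_image] at hd
      obtain ⟨p, hp, rfl⟩ := hd
      exact (hf p hp).1
    · rw [Finset.card_image_of_injOn hinj]; exact hc
  have hsurj : ∀ d ∈ D, ∃ p ∈ P, f p = d := by
    intro d hd
    rw [← himg, Finset.mem_image] at hd
    exact hd
  refine ⟨hDS, hdom, hP, ?_, ?_, htwo⟩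
  · intro d hd
    obtain ⟨p, hp, rfl⟩ := hsurj d hd
    exact ⟨p, hp, (hf p hp).2⟩
  · intro p hp d hd d' hd' h1 h2
    obtain ⟨p1, hp1, rfl⟩ := hsurj d hd
    obtain ⟨p2, hp2, rfl⟩ := hsurj d' hd'
    have e1 : p1 = p := hP.2 p1 hp1 p hp (f p1) (hDS hd) (hf p1 hp1).2 h1
    have e2 : p2 = p := hP.2 p2 hp2 p hp (f p2) (hDS hd') (hf p2 hp2).2 h2
    rw [e1, e2]


omit [Fintype V] in
/-- removing the star around `v1` keeps the labelling valid -/
theorem Valid.remove {G : SimpleGraph V} {S D P : Finset V} (hV : Valid G S D P) {X : Finset V} {v1 q : V}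
    (hv1 : v1 ∈ D) (hq : q ∈ P) (hqv : v1 = q ∨ G.Adj v1 q) (hX : ∀ x ∈ X, x ≠ v1 → G.Adj v1 x)
    (hXD : ∀ x ∈ X, x ∈ D → x = v1) (hv1X : v1 ∈ X)
    (hdom : ∀ v ∈ S, v ∉ X → v ∉ D → ∃ d ∈ D, d ≠ v1 ∧ G.Adj v d)
    (hiso : ∀ x ∈ X, x ≠ v1 → ∀ d ∈ D, d ≠ v1 → ¬ G.Adj d x) :
    Valid G (S \ X) (D.erase v1) (P.erase q) := by
  have hqN : ∀ d ∈ D, (d = q ∨ G.Adj d q) → d = v1 := fun d hd h => hV.oneD q hq d hd v1 hv1 h hqv
  refine ⟨?_, ?_, ⟨?_, ?_⟩, ?_, ?_, ?_⟩
  · intro d hd
    rw [Finset.mem_erase] at hd
    rw [Finset.mem_sdiff]
    exact ⟨hV.DS hd.2, fun h => hd.1 (hXD d h hd.2)⟩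
  · intro v hv hvD
    rw [Finset.mem_sdiff] at hv
    have h2 : v ∉ D := fun h => hvD (Finset.mem_erase.2 ⟨fun h3 => hv.2 (h3 ▸ hv1X), h⟩)
    obtain ⟨d, hd, hdv, hadj⟩ := hdom v hv.1 hv.2 h2
    exact ⟨d, Finset.mem_erase.2 ⟨hdv, hd⟩, hadj⟩
  · intro p hp
    rw [Finset.mem_erase] at hp
    rw [Finset.mem_sdiff]
    refine ⟨hV.pack.1 hp.2, fun h => hp.1 ?_⟩
    apply hV.pack.2 p hp.2 q hq v1 (hV.DS hv1) _ hqv
    by_cases h2 : p = v1
    · exact Or.inl h2.symm
    · exact Or.inr (hX p h h2)
  · intro p hp q' hq' v hv h1 h2
    exact hV.pack.2 p (Finset.mem_of_mem_erase hp) q' (Finset.mem_of_mem_erase hq') v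
      (Finset.mem_sdiff.1 hv).1 h1 h2
  · intro d hd
    rw [Finset.mem_erase] at hd
    obtain ⟨p, hp, h1⟩ := hV.exP d hd.2
    refine ⟨p, Finset.mem_erase.2 ⟨fun h => ?_, hp⟩, h1⟩
    rw [h] at h1
    exact hd.1 (hqN d hd.2 h1)
  · intro p hp d hd d' hd' h1 h2
    exact hV.oneD p (Finset.mem_of_mem_erase hp) d (Finset.mem_of_mem_erase hd) d'
      (Finset.mem_of_mem_erase hd') h1 h2
  · intro d hd
    rw [Finset.mem_erase] at hd
    obtain ⟨a, ha, b, hb, hab, haD, hbD, hda, hdb⟩ := hV.two d hd.2
    have key : ∀ a ∈ S, a ∉ D → G.Adj d a → a ∈ S \ X := by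
      intro a ha haD hda
      rw [Finset.mem_sdiff]
      refine ⟨ha, fun h => ?_⟩
      by_cases h2 : a = v1
      · exact haD (h2 ▸ hv1)
      · exact hiso a h h2 d hd.2 hd.1 hda
    exact ⟨a, key a ha haD hda, b, key b hb hbD hdb, hab, fun h => haD (Finset.mem_of_mem_erase h),
      fun h => hbD (Finset.mem_of_mem_erase h), hda, hdb⟩

omit [Fintype V] in
/-- completeness: every valid labelling of a parent-closed set is constructible -/
theorem complete {G : SimpleGraph V} {r : V} {par : V → V} {dep : V → ℕ} (hR : Rooted G r par dep) :
    ∀ (n : ℕ) (S D P : Finset V), S.card = n → Closed r par S → Valid G S D P →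
      Constr0 G S D P := by
  classical
  intro n
  induction n using Nat.strong_induction_on with
  | _ n ih =>
    intro S D P hcard hcl hV
    obtain ⟨v0, hv0S, hmax⟩ := Finset.exists_max_image S dep ⟨r, hcl.1⟩
    have hDS := hV.DS
    by_cases hv0r : v0 = r
    · exfalso
      subst hv0r
      have hall : ∀ s ∈ S, s = v0 := fun s hs => hR.eq_root_of_dep hmax hs
      have hv0D : v0 ∈ D := by
        by_contra h
        obtain ⟨d, hd, hadj⟩ := hV.dom v0 hv0S h
        exact hadj.ne (hall d (hDS hd)).symm
      obtain ⟨a, ha, b, hb, hab, _⟩ := hV.two v0 hv0D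
      exact hab ((hall a ha).trans (hall b hb).symm)
    set v1 := par v0 with hv1
    have hv1S : v1 ∈ S := hcl.2 v0 hv0S hv0r
    have hadj01 : G.Adj v0 v1 := hR.adj_par v0 hv0r
    have hd1 : dep v0 = dep v1 + 1 := hR.dep_par v0 hv0r
    -- vertices of maximal depth are leaves
    have hleaf : ∀ c ∈ S, dep c = dep v0 → ∀ s ∈ S, G.Adj c s → c ≠ r ∧ par c = s := by
      intro c _ hdc s hs hadj
      exact hR.deepest (S := S) (fun s hs => by rw [hdc]; exact hmax s hs) hs hadj
    have hleafD : ∀ c ∈ S, dep c = dep v0 → c ∉ D := by
      intro c hc hdc hcD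
      obtain ⟨a, ha, b, hb, hab, _, _, hca, hcb⟩ := hV.two c hcD
      exact hab ((hleaf c hc hdc a ha hca).2.symm.trans (hleaf c hc hdc b hb hcb).2)
    have hv0D : v0 ∉ D := hleafD v0 hv0S rfl
    have hv1D : v1 ∈ D := by
      obtain ⟨d, hd, hadj⟩ := hV.dom v0 hv0S hv0D
      have := (hleaf v0 hv0S rfl d (hDS hd) hadj).2
      rw [hv1, this]; exact hd
    -- the children of `v1`
    have hchild : ∀ c ∈ S, c ≠ r → par c = v1 → dep c = dep v0 := by
      intro c _ hcr hpc
      have := hR.dep_par c hcr
      rw [hpc] at this; omega
    have hnb1 : ∀ c ∈ S, G.Adj v1 c → (c ≠ r ∧ par c = v1) ∨ (v1 ≠ r ∧ par v1 = c) := by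
      intro c _ hadj
      rcases hR.adj_iff v1 c hadj with h | h
      · exact Or.inr h
      · exact Or.inl h
    -- marks
    obtain ⟨q, hqP, hqv⟩ := hV.exP v1 hv1D
    have hqS := hV.pack.1 hqP
    have hPuniq : ∀ p ∈ P, (v1 = p ∨ G.Adj v1 p) → p = q := fun p hp h =>
      hV.pack.2 p hp q hqP v1 hv1S h hqv
    have hclosed_erase : ∀ X : Finset V, r ∉ X → (∀ s ∈ S, s ∉ X → s ≠ r → par s ∉ X) → Closed r par (S \ X) := by
      intro X hrX hpX
      refine ⟨Finset.mem_sdiff.2 ⟨hcl.1, hrX⟩, fun s hs hsr => ?_⟩
      rw [Finset.mem_sdiff] at hs ⊢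
      exact ⟨hcl.2 s hs.1 hsr, hpX s hs.1 hs.2 hsr⟩
    have hdeep_not_par : ∀ s ∈ S, s ≠ r → ∀ c, dep c = dep v0 → par s ≠ c := by
      intro s hs hsr c hc h
      have h2 := hR.dep_par s hsr
      have h3 := hmax s hs
      rw [h] at h2; omega
    -- Case A : some extra leaf can be removed
    by_cases hA : ∃ z ∈ S, z ≠ r ∧ par z = v1 ∧ z ∉ P ∧
        ∃ a ∈ S, ∃ b ∈ S, a ≠ b ∧ a ≠ z ∧ b ≠ z ∧ a ∉ D ∧ b ∉ D ∧ G.Adj v1 a ∧ G.Adj v1 b
    · obtain ⟨z, hzS, hzr, hzpar, hzP, a, ha, b, hb, hab, haz, hbz, haD, hbD, hva, hvb⟩ := hA
      have hdz := hchild z hzS hzr hzpar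
      have hzD := hleafD z hzS hdz
      have hznb : ∀ s ∈ S, G.Adj z s → s = v1 := by
        intro s hs hadj
        rw [← (hleaf z hzS hdz s hs hadj).2, hzpar]
      have hzv1 : G.Adj z v1 := by rw [← hzpar]; exact hR.adj_par z hzr
      have hV' : Valid G (S.erase z) D P := by
        refine ⟨?_, ?_, ⟨?_, ?_⟩, hV.exP, hV.oneD, ?_⟩
        · intro d hd
          exact Finset.mem_erase.2 ⟨fun h => hzD (h ▸ hd), hDS hd⟩
        · intro v hv hvD
          exact hV.dom v (Finset.mem_of_mem_erase hv) hvD
        · intro p hp
          exact Finset.mem_erase.2 ⟨fun h => hzP (h ▸ hp), hV.pack.1 hp⟩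
        · intro p hp p' hp' v hv h1 h2
          exact hV.pack.2 p hp p' hp' v (Finset.mem_of_mem_erase hv) h1 h2
        · intro d hd
          by_cases hd1 : d = v1
          · subst hd1
            exact ⟨a, Finset.mem_erase.2 ⟨haz, ha⟩, b, Finset.mem_erase.2 ⟨hbz, hb⟩, hab, haD, hbD, hva, hvb⟩
          · obtain ⟨a, ha, b, hb, hab, haD, hbD, hda, hdb⟩ := hV.two d hd
            refine ⟨a, Finset.mem_erase.2 ⟨fun h => ?_, ha⟩, b, Finset.mem_erase.2 ⟨fun h => ?_, hb⟩, hab,
              haD, hbD, hda, hdb⟩
            · exact hd1 (hznb d (hDS hd) (h ▸ hda).symm)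
            · exact hd1 (hznb d (hDS hd) (h ▸ hdb).symm)
      have hcl' : Closed r par (S.erase z) := by
        rw [← Finset.sdiff_singleton_eq_erase]
        apply hclosed_erase
        · simpa using hzr.symm
        · intro s hs _ hsr
          rw [Finset.mem_singleton]
          exact hdeep_not_par s hs hsr z hdz
      have hlt : (S.erase z).card < n := by rw [← hcard]; exact Finset.card_erase_lt_of_mem hzS
      have hC := ih _ hlt (S.erase z) D P rfl hcl' hV'
      have := Constr0.addLeaf (S.erase z) D P v1 z hC hv1D (Finset.notMem_erase z S) (by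
        intro s hs
        constructor
        · intro h; exact hznb s (Finset.mem_of_mem_erase hs) h.symm
        · rintro rfl; exact hzv1.symm)
      rwa [Finset.insert_erase hzS] at this
    · push Not at hA
      -- at most one child lies in P, so there are at most two children
      have hCA : ∀ z ∈ S, z ≠ r → par z = v1 → ∀ a ∈ S, ∀ b ∈ S, a ≠ b → a ≠ z → b ≠ z → a ∉ D → b ∉ D →
          G.Adj v1 a → G.Adj v1 b → z = q := by
        intro z hz hzr hzpar a ha b hb hab haz hbz haD hbD hva hvb
        by_contra hzq
        have hzP : z ∉ P := by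
          intro hzP
          apply hzq
          apply hPuniq z hzP
          right
          rw [← hzpar]; exact (hR.adj_par z hzr).symm
        exact hA z hz hzr hzpar hzP a ha b hb hab haz hbz haD hbD hva hvb
      by_cases h2 : ∃ z ∈ S, z ≠ r ∧ par z = v1 ∧ z ≠ v0
      · -- exactly two children v0, z
        obtain ⟨z, hzS, hzr, hzpar, hzv0⟩ := h2
        have hdz := hchild z hzS hzr hzpar
        have hzD := hleafD z hzS hdz
        have hzv1 : G.Adj z v1 := by rw [← hzpar]; exact hR.adj_par z hzr
        have hznb : ∀ s ∈ S, G.Adj z s → s = v1 := by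
          intro s hs hadj
          rw [← (hleaf z hzS hdz s hs hadj).2, hzpar]
        have hv0nb : ∀ s ∈ S, G.Adj v0 s → s = v1 := by
          intro s hs hadj
          rw [hv1, (hleaf v0 hv0S rfl s hs hadj).2]
        -- a third non-D neighbour is impossible
        have hthird : ∀ c ∈ S, G.Adj v1 c → c ∉ D → c = v0 ∨ c = z := by
          intro c hc hvc hcD
          by_contra hcon
          push Not at hcon
          obtain ⟨hc0, hcz⟩ := hcon
          have e1 : z = q := hCA z hzS hzr hzpar v0 hv0S c hc hc0.symm hzv0.symm hcz hv0D hcD hadj01.symm hvc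
          have e2 : v0 = q := hCA v0 hv0S hv0r rfl z hzS c hc hcz.symm hzv0 hc0 hzD hcD hzv1.symm hvc
          exact hzv0 (e1.trans e2.symm)
        by_cases h1r : v1 = r
        · -- the base case
          have hS : S = {v1, v0, z} := by
            ext s
            simp only [Finset.mem_insert, Finset.mem_singleton]
            constructor
            · intro hs
              by_cases hsr : s = r
              · left; rw [hsr, h1r]
              · right
                have hpar : par s = v1 := by
                  rw [h1r]
                  by_contra hpr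
                  have h3 := hR.dep_par s hsr
                  have h4 := hR.dep_par (par s) hpr
                  have h5 := hmax s hs
                  rw [h1r, hR.dep_r] at hd1
                  omega
                apply hthird s hs _ (hleafD s hs (hchild s hs hsr hpar))
                rw [← hpar]; exact (hR.adj_par s hsr).symm
            · rintro (rfl | rfl | rfl)
              · exact hv1S
              · exact hv0S
              · exact hzS
          have hD : D = {v1} := by
            ext d
            rw [Finset.mem_singleton]
            constructor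
            · intro hd
              have := hDS hd
              rw [hS] at this
              simp only [Finset.mem_insert, Finset.mem_singleton] at this
              rcases this with h | h | h
              · exact h
              · exact absurd (h ▸ hd) hv0D
              · exact absurd (h ▸ hd) hzD
            · rintro rfl; exact hv1D
          have hP : P = {q} := by
            ext p
            rw [Finset.mem_singleton]
            constructor
            · intro hp
              apply hPuniq p hp
              have := hV.pack.1 hp
              rw [hS] at this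
              simp only [Finset.mem_insert, Finset.mem_singleton] at this
              rcases this with h | h | h
              · exact Or.inl h.symm
              · right; rw [h]; exact hadj01.symm
              · right; rw [h]; exact hzv1.symm
            · rintro rfl; exact hqP
          have hnadj : ¬ G.Adj v0 z := fun h => by
            have := hv0nb z hzS h
            exact hzD (this ▸ hv1D)
          rw [hS] at hqS
          simp only [Finset.mem_insert, Finset.mem_singleton] at hqS
          rw [hS, hD, hP]
          rcases hqS with h | h | h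
          · exact Constr0.base v1 v0 z q hzv0.symm hadj01.symm hzv1.symm hnadj (Or.inl h)
          · exact Constr0.base v1 v0 z q hzv0.symm hadj01.symm hzv1.symm hnadj (Or.inr h)
          · have := Constr0.base v1 z v0 q hzv0 hzv1.symm hadj01.symm (fun h => hnadj h.symm) (Or.inr h)
            rwa [Finset.pair_comm z v0] at this
        · -- v2 ∈ D
          set v2 := par v1 with hv2
          have hv2S : v2 ∈ S := hcl.2 v1 hv1S h1r
          have hadj12 : G.Adj v1 v2 := hR.adj_par v1 h1r
          have hd2 : dep v1 = dep v2 + 1 := hR.dep_par v1 h1r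
          have hv2D : v2 ∈ D := by
            by_contra h
            rcases hthird v2 hv2S hadj12 h with h3 | h3
            · rw [h3] at hd2; omega
            · rw [h3, hdz] at hd2; omega
          have hnb : ∀ s ∈ S, G.Adj v1 s → s = v0 ∨ s = z ∨ s = v2 := by
            intro s hs hadj
            by_cases hsD : s ∈ D
            · rcases hnb1 s hs hadj with h | h
              · exact absurd hsD (hleafD s hs (hchild s hs h.1 h.2))
              · exact Or.inr (Or.inr h.2.symm)
            · rcases hthird s hs hadj hsD with h | h
              · exact Or.inl h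
              · exact Or.inr (Or.inl h)
          have hqC : q = v0 ∨ q = z := by
            rcases hqv with h | h
            · exfalso
              have := hV.oneD q hqP v1 hv1D v2 hv2D (Or.inl h) (Or.inr (by rw [← h]; exact hadj12.symm))
              exact hadj12.ne this
            · rcases hnb q hqS h with h3 | h3 | h3
              · exact Or.inl h3
              · exact Or.inr h3
              · exfalso
                have := hV.oneD q hqP v1 hv1D v2 hv2D (Or.inr h) (Or.inl h3.symm)
                exact hadj12.ne this
          set X : Finset V := {v1, v0, z} with hXdef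
          have hXmem : ∀ x, x ∈ X ↔ x = v1 ∨ x = v0 ∨ x = z := by
            intro x; simp [hXdef]
          have hV' : Valid G (S \ X) (D.erase v1) (P.erase q) := by
            apply hV.remove hv1D hqP hqv
            · intro x hx hxv
              rcases (hXmem x).1 hx with h | h | h
              · exact absurd h hxv
              · rw [h]; exact hadj01.symm
              · rw [h]; exact hzv1.symm
            · intro x hx hxD
              rcases (hXmem x).1 hx with h | h | h
              · exact h
              · exact absurd (h ▸ hxD) hv0D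
              · exact absurd (h ▸ hxD) hzD
            · exact (hXmem v1).2 (Or.inl rfl)
            · intro v hv hvX hvD
              obtain ⟨d, hd, hadj⟩ := hV.dom v hv hvD
              refine ⟨d, hd, fun h => ?_, hadj⟩
              subst h
              rcases hnb v hv hadj.symm with h | h | h
              · exact hvX ((hXmem v).2 (Or.inr (Or.inl h)))
              · exact hvX ((hXmem v).2 (Or.inr (Or.inr h)))
              · exact hvD (h ▸ hv2D)
            · intro x hx hxv d hd hdv hadj
              rcases (hXmem x).1 hx with h | h | h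
              · exact hxv h
              · exact hdv (hv0nb d (hDS hd) (h ▸ hadj.symm))
              · exact hdv (hznb d (hDS hd) (h ▸ hadj.symm))
          have hrX : r ∉ X := by
            rw [hXmem]
            rintro (h | h | h)
            · exact h1r h.symm
            · exact hv0r h.symm
            · exact hzr h.symm
          have hcl' : Closed r par (S \ X) := by
            apply hclosed_erase X hrX
            intro s hs hsX hsr hpX
            rcases (hXmem _).1 hpX with h | h | h
            · have h3 := hchild s hs hsr h
              have : G.Adj v1 s := by rw [← h]; exact (hR.adj_par s hsr).symm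
              rcases hthird s hs this (hleafD s hs h3) with h4 | h4
              · exact hsX ((hXmem s).2 (Or.inr (Or.inl h4)))
              · exact hsX ((hXmem s).2 (Or.inr (Or.inr h4)))
            · exact hdeep_not_par s hs hsr v0 rfl h
            · exact hdeep_not_par s hs hsr z hdz h
          have hXS : X ⊆ S := by
            intro x hx
            rcases (hXmem x).1 hx with h | h | h
            · exact h ▸ hv1S
            · exact h ▸ hv0S
            · exact h ▸ hzS
          have hlt : (S \ X).card < n := by
            rw [← hcard]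
            apply Finset.card_lt_card
            exact ⟨Finset.sdiff_subset, fun h => (Finset.mem_sdiff.1 (h hv1S)).2 ((hXmem v1).2 (Or.inl rfl))⟩
          have hC := ih _ hlt _ _ _ rfl hcl' hV'
          have hv2D' : v2 ∈ D.erase v1 := Finset.mem_erase.2 ⟨hadj12.ne.symm, hv2D⟩
          have hSX : S \ X ∪ X = S := Finset.sdiff_union_of_subset hXS
          have := Constr0.addStar (S \ X) (D.erase v1) (P.erase q) v2 v1 v0 z q hC hv2D'
            (fun h => (Finset.mem_sdiff.1 h).2 ((hXmem v1).2 (Or.inl rfl)))
            (fun h => (Finset.mem_sdiff.1 h).2 ((hXmem v0).2 (Or.inr (Or.inl rfl))))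
            (fun h => (Finset.mem_sdiff.1 h).2 ((hXmem z).2 (Or.inr (Or.inr rfl))))
            hzv0.symm hadj01.symm hzv1.symm
            (fun h => by
              have := hv0nb z hzS h
              exact hzD (this ▸ hv1D))
            (by
              intro s hs
              rw [Finset.mem_sdiff] at hs
              constructor
              · intro h
                rcases hnb s hs.1 h.symm with h3 | h3 | h3
                · exact absurd ((hXmem s).2 (Or.inr (Or.inl h3))) hs.2
                · exact absurd ((hXmem s).2 (Or.inr (Or.inr h3))) hs.2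
                · exact h3
              · rintro rfl; exact hadj12.symm)
            (by
              intro s hs h
              rw [Finset.mem_sdiff] at hs
              exact hs.2 ((hXmem s).2 (Or.inl (hv0nb s hs.1 h.symm))))
            (by
              intro s hs h
              rw [Finset.mem_sdiff] at hs
              exact hs.2 ((hXmem s).2 (Or.inl (hznb s hs.1 h.symm))))
            (by
              rcases hqC with h | h
              · simp [h]
              · simp [h])
            (by
              rw [Finset.insert_erase hqP, ← hXdef, hSX]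
              exact hV.pack)
          rwa [← hXdef, hSX, Finset.insert_erase hv1D, Finset.insert_erase hqP] at this
      · -- v0 is the only child of v1
        push Not at h2
        have honly : ∀ z ∈ S, z ≠ r → par z = v1 → z = v0 := h2
        have hv0nb : ∀ s ∈ S, G.Adj v0 s → s = v1 := by
          intro s hs hadj
          rw [hv1, (hleaf v0 hv0S rfl s hs hadj).2]
        have h1r : v1 ≠ r := by
          intro h1r
          obtain ⟨a, ha, b, hb, hab, haD, hbD, hva, hvb⟩ := hV.two v1 hv1D
          have key : ∀ a ∈ S, G.Adj v1 a → a = v0 := by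
            intro a ha hva
            rcases hnb1 a ha hva with h | h
            · exact honly a ha h.1 h.2
            · exact absurd h1r h.1
          exact hab ((key a ha hva).trans (key b hb hvb).symm)
        set v2 := par v1 with hv2
        have hv2S : v2 ∈ S := hcl.2 v1 hv1S h1r
        have hadj12 : G.Adj v1 v2 := hR.adj_par v1 h1r
        have hd2 : dep v1 = dep v2 + 1 := hR.dep_par v1 h1r
        have hnb : ∀ s ∈ S, G.Adj v1 s → s = v0 ∨ s = v2 := by
          intro s hs hadj
          rcases hnb1 s hs hadj with h | h
          · exact Or.inl (honly s hs h.1 h.2)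
          · exact Or.inr h.2.symm
        have hv2D : v2 ∉ D := by
          intro h
          obtain ⟨a, ha, b, hb, hab, haD, hbD, hva, hvb⟩ := hV.two v1 hv1D
          have key : ∀ a ∈ S, a ∉ D → G.Adj v1 a → a = v0 := by
            intro a ha haD hva
            rcases hnb a ha hva with h3 | h3
            · exact h3
            · exact absurd (h3 ▸ h) haD
          exact hab ((key a ha haD hva).trans (key b hb hbD hvb).symm)
        have hv02 : v0 ≠ v2 := by
          intro h
          rw [← h] at hd2; omega
        have hqC : q = v1 ∨ q = v0 ∨ q = v2 := by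
          rcases hqv with h | h
          · exact Or.inl h.symm
          · exact Or.inr (hnb q hqS h)
        by_cases hB : ∃ d0 ∈ D, d0 ≠ v1 ∧ G.Adj v2 d0
        · -- remove v0, v1
          obtain ⟨d0, hd0D, hd0v1, hadj20⟩ := hB
          have hq2 : q ≠ v2 := by
            intro h
            have := hV.oneD q hqP v1 hv1D d0 hd0D (Or.inr (by rw [h]; exact hadj12))
              (Or.inr (by rw [h]; exact hadj20.symm))
            exact hd0v1 this.symm
          set X : Finset V := {v1, v0} with hXdef
          have hXmem : ∀ x, x ∈ X ↔ x = v1 ∨ x = v0 := by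
            intro x; simp [hXdef]
          have hV' : Valid G (S \ X) (D.erase v1) (P.erase q) := by
            apply hV.remove hv1D hqP hqv
            · intro x hx hxv
              rcases (hXmem x).1 hx with h | h
              · exact absurd h hxv
              · rw [h]; exact hadj01.symm
            · intro x hx hxD
              rcases (hXmem x).1 hx with h | h
              · exact h
              · exact absurd (h ▸ hxD) hv0D
            · exact (hXmem v1).2 (Or.inl rfl)
            · intro v hv hvX hvD
              obtain ⟨d, hd, hadj⟩ := hV.dom v hv hvD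
              by_cases hdv : d = v1
              · subst hdv
                rcases hnb v hv hadj.symm with h | h
                · exact absurd ((hXmem v).2 (Or.inr h)) hvX
                · exact ⟨d0, hd0D, hd0v1, h ▸ hadj20⟩
              · exact ⟨d, hd, hdv, hadj⟩
            · intro x hx hxv d hd hdv hadj
              rcases (hXmem x).1 hx with h | h
              · exact hxv h
              · exact hdv (hv0nb d (hDS hd) (h ▸ hadj.symm))
          have hrX : r ∉ X := by
            rw [hXmem]
            rintro (h | h)
            · exact h1r h.symm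
            · exact hv0r h.symm
          have hcl' : Closed r par (S \ X) := by
            apply hclosed_erase X hrX
            intro s hs hsX hsr hpX
            rcases (hXmem _).1 hpX with h | h
            · exact hsX ((hXmem s).2 (Or.inr (honly s hs hsr h)))
            · exact hdeep_not_par s hs hsr v0 rfl h
          have hXS : X ⊆ S := by
            intro x hx
            rcases (hXmem x).1 hx with h | h
            · exact h ▸ hv1S
            · exact h ▸ hv0S
          have hlt : (S \ X).card < n := by
            rw [← hcard]
            apply Finset.card_lt_card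
            exact ⟨Finset.sdiff_subset, fun h => (Finset.mem_sdiff.1 (h hv1S)).2 ((hXmem v1).2 (Or.inl rfl))⟩
          have hC := ih _ hlt _ _ _ rfl hcl' hV'
          have hSX : S \ X ∪ X = S := Finset.sdiff_union_of_subset hXS
          have := Constr0.addEdge (S \ X) (D.erase v1) (P.erase q) v2 v1 v0 q hC
            (Finset.mem_sdiff.2 ⟨hv2S, fun h => by
              rcases (hXmem _).1 h with h | h
              · exact hadj12.ne h.symm
              · exact hv02 h.symm⟩)
            (fun h => hv2D (Finset.mem_of_mem_erase h))
            (fun h => (Finset.mem_sdiff.1 h).2 ((hXmem v1).2 (Or.inl rfl)))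
            (fun h => (Finset.mem_sdiff.1 h).2 ((hXmem v0).2 (Or.inr rfl)))
            hadj01.symm
            (by
              intro s hs
              rw [Finset.mem_sdiff] at hs
              constructor
              · intro h
                rcases hnb s hs.1 h.symm with h3 | h3
                · exact absurd ((hXmem s).2 (Or.inr h3)) hs.2
                · exact h3
              · rintro rfl; exact hadj12.symm)
            (by
              intro s hs h
              rw [Finset.mem_sdiff] at hs
              exact hs.2 ((hXmem s).2 (Or.inl (hv0nb s hs.1 h.symm))))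
            (by
              rcases hqC with h | h | h
              · simp [h]
              · simp [h]
              · exact absurd h hq2)
            (by
              rw [Finset.insert_erase hqP, ← hXdef, hSX]
              exact hV.pack)
          rwa [← hXdef, hSX, Finset.insert_erase hv1D, Finset.insert_erase hqP] at this
        · -- v2 has degree at most two
          push Not at hB
          have h2child : ∀ c ∈ S, c ≠ r → par c = v2 → c = v1 := by
            intro c hc hcr hpc
            by_contra hcv1
            have hadjc : G.Adj c v2 := by rw [← hpc]; exact hR.adj_par c hcr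
            have hcD : c ∉ D := fun h => hB c h hcv1 hadjc.symm
            obtain ⟨d, hd, hadj⟩ := hV.dom c hc hcD
            rcases hR.adj_iff c d hadj with h | h
            · rw [hpc] at h
              exact hv2D (h.2 ▸ hd)
            · have h3 := hR.dep_par d h.1
              rw [h.2] at h3
              have h4 := hR.dep_par c hcr
              rw [hpc] at h4
              exact hleafD d (hDS hd) (by omega) hd
          set X : Finset V := {v1, v0, v2} with hXdef
          have hXmem : ∀ x, x ∈ X ↔ x = v1 ∨ x = v0 ∨ x = v2 := by
            intro x; simp [hXdef]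
          have hXS : X ⊆ S := by
            intro x hx
            rcases (hXmem x).1 hx with h | h | h
            · exact h ▸ hv1S
            · exact h ▸ hv0S
            · exact h ▸ hv2S
          have hnadj : ¬ G.Adj v0 v2 := fun h => hadj12.ne (hv0nb v2 hv2S h).symm
          by_cases h2r : v2 = r
          · -- S = {v0, v1, v2}
            have hS : S = {v1, v0, v2} := by
              apply Finset.Subset.antisymm _ hXS
              intro s hs
              rw [hXmem]
              by_cases hsr : s = r
              · right; right; rw [hsr, h2r]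
              · by_cases hps : par s = v2
                · exact Or.inl (h2child s hs hsr hps)
                · right; left
                  have hpr : par s ≠ r := fun h => hps (h.trans h2r.symm)
                  have hpS := hcl.2 s hs hsr
                  have h3 := hR.dep_par s hsr
                  have h4 := hR.dep_par (par s) hpr
                  have h5 := hmax s hs
                  have h6 : dep v2 = 0 := by rw [h2r]; exact hR.dep_r
                  have h7 : par (par s) = v2 := by
                    rw [h2r]
                    by_contra h8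
                    have h9 := hR.dep_par _ h8
                    omega
                  have h8 := h2child (par s) hpS hpr h7
                  exact honly s hs hsr h8
            have hD : D = {v1} := by
              ext d
              rw [Finset.mem_singleton]
              constructor
              · intro hd
                have := hDS hd
                rw [hS] at this
                simp only [Finset.mem_insert, Finset.mem_singleton] at this
                rcases this with h | h | h
                · exact h
                · exact absurd (h ▸ hd) hv0D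
                · exact absurd (h ▸ hd) hv2D
              · rintro rfl; exact hv1D
            have hP : P = {q} := by
              ext p
              rw [Finset.mem_singleton]
              constructor
              · intro hp
                apply hPuniq p hp
                have := hV.pack.1 hp
                rw [hS] at this
                simp only [Finset.mem_insert, Finset.mem_singleton] at this
                rcases this with h | h | h
                · exact Or.inl h.symm
                · right; rw [h]; exact hadj01.symm
                · right; rw [h]; exact hadj12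
              · rintro rfl; exact hqP
            rw [hS, hD, hP]
            rcases hqC with h | h | h
            · exact Constr0.base v1 v0 v2 q hv02 hadj01.symm hadj12 hnadj (Or.inl h)
            · exact Constr0.base v1 v0 v2 q hv02 hadj01.symm hadj12 hnadj (Or.inr h)
            · have := Constr0.base v1 v2 v0 q hv02.symm hadj12 hadj01.symm (fun h => hnadj h.symm) (Or.inr h)
              rwa [Finset.pair_comm v2 v0] at this
          · set v3 := par v2 with hv3
            have hv3S : v3 ∈ S := hcl.2 v2 hv2S h2r
            have hadj23 : G.Adj v2 v3 := hR.adj_par v2 h2r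
            have hd3 : dep v2 = dep v3 + 1 := hR.dep_par v2 h2r
            have hv31 : v3 ≠ v1 := by intro h; rw [h] at hd3; omega
            have hv30 : v3 ≠ v0 := by intro h; rw [h] at hd3; omega
            have hv3D : v3 ∉ D := fun h => hB v3 h hv31 hadj23
            have hnb2 : ∀ s ∈ S, G.Adj v2 s → s = v1 ∨ s = v3 := by
              intro s hs hadj
              rcases hR.adj_iff v2 s hadj with h | h
              · exact Or.inr h.2.symm
              · exact Or.inl (h2child s hs h.1 h.2)
            have hV' : Valid G (S \ X) (D.erase v1) (P.erase q) := by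
              apply hV.remove hv1D hqP hqv
              · intro x hx hxv
                rcases (hXmem x).1 hx with h | h | h
                · exact absurd h hxv
                · rw [h]; exact hadj01.symm
                · rw [h]; exact hadj12
              · intro x hx hxD
                rcases (hXmem x).1 hx with h | h | h
                · exact h
                · exact absurd (h ▸ hxD) hv0D
                · exact absurd (h ▸ hxD) hv2D
              · exact (hXmem v1).2 (Or.inl rfl)
              · intro v hv hvX hvD
                obtain ⟨d, hd, hadj⟩ := hV.dom v hv hvD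
                refine ⟨d, hd, fun h => ?_, hadj⟩
                subst h
                rcases hnb v hv hadj.symm with h | h
                · exact hvX ((hXmem v).2 (Or.inr (Or.inl h)))
                · exact hvX ((hXmem v).2 (Or.inr (Or.inr h)))
              · intro x hx hxv d hd hdv hadj
                rcases (hXmem x).1 hx with h | h | h
                · exact hxv h
                · exact hdv (hv0nb d (hDS hd) (h ▸ hadj.symm))
                · rcases hnb2 d (hDS hd) (h ▸ hadj.symm) with h3 | h3
                  · exact hdv h3
                  · exact hv3D (h3 ▸ hd)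
            have hrX : r ∉ X := by
              rw [hXmem]
              rintro (h | h | h)
              · exact h1r h.symm
              · exact hv0r h.symm
              · exact h2r h.symm
            have hcl' : Closed r par (S \ X) := by
              apply hclosed_erase X hrX
              intro s hs hsX hsr hpX
              rcases (hXmem _).1 hpX with h | h | h
              · exact hsX ((hXmem s).2 (Or.inr (Or.inl (honly s hs hsr h))))
              · exact hdeep_not_par s hs hsr v0 rfl h
              · exact hsX ((hXmem s).2 (Or.inl (h2child s hs hsr h)))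
            have hlt : (S \ X).card < n := by
              rw [← hcard]
              apply Finset.card_lt_card
              exact ⟨Finset.sdiff_subset, fun h => (Finset.mem_sdiff.1 (h hv1S)).2 ((hXmem v1).2 (Or.inl rfl))⟩
            have hC := ih _ hlt _ _ _ rfl hcl' hV'
            have hSX : S \ X ∪ X = S := Finset.sdiff_union_of_subset hXS
            have := Constr0.addPath (S \ X) (D.erase v1) (P.erase q) v3 v1 v0 v2 q hC
              (Finset.mem_sdiff.2 ⟨hv3S, fun h => by
                rcases (hXmem _).1 h with h | h | h
                · exact hv31 h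
                · exact hv30 h
                · exact hadj23.ne h.symm⟩)
              (fun h => hv3D (Finset.mem_of_mem_erase h))
              (fun h => (Finset.mem_sdiff.1 h).2 ((hXmem v1).2 (Or.inl rfl)))
              (fun h => (Finset.mem_sdiff.1 h).2 ((hXmem v0).2 (Or.inr (Or.inl rfl))))
              (fun h => (Finset.mem_sdiff.1 h).2 ((hXmem v2).2 (Or.inr (Or.inr rfl))))
              hv02 hadj01.symm hadj12 hnadj
              (by
                intro s hs
                rw [Finset.mem_sdiff] at hs
                constructor
                · intro h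
                  rcases hnb2 s hs.1 h.symm with h3 | h3
                  · exact absurd ((hXmem s).2 (Or.inl h3)) hs.2
                  · exact h3
                · rintro rfl; exact hadj23.symm)
              (by
                intro s hs h
                rw [Finset.mem_sdiff] at hs
                rcases hnb s hs.1 h.symm with h3 | h3
                · exact hs.2 ((hXmem s).2 (Or.inr (Or.inl h3)))
                · exact hs.2 ((hXmem s).2 (Or.inr (Or.inr h3))))
              (by
                intro s hs h
                rw [Finset.mem_sdiff] at hs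
                exact hs.2 ((hXmem s).2 (Or.inl (hv0nb s hs.1 h.symm))))
              (by
                rcases hqC with h | h | h <;> simp [h])
              (by
                rw [Finset.insert_erase hqP, ← hXdef, hSX]
                exact hV.pack)
            rwa [← hXdef, hSX, Finset.insert_erase hv1D, Finset.insert_erase hqP] at this


omit [Fintype V] in
theorem pack_insert {G : SimpleGraph V} {S S' P : Finset V} {q : V} (hP : IsTwoPacking G S P) (hS : S ⊆ S')
    (hq : q ∈ S')
    (h1 : ∀ v ∈ S', v ∉ S → ∀ p ∈ P, ∀ p' ∈ P, G.Adj v p → G.Adj v p' → p = p')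
    (h2 : ∀ p ∈ P, ∀ v ∈ S', (v = p ∨ G.Adj v p) → (v = q ∨ G.Adj v q) → False) :
    IsTwoPacking G S' (insert q P) := by
  refine ⟨?_, ?_⟩
  · intro p hp
    rw [Finset.mem_insert] at hp
    rcases hp with rfl | hp
    · exact hq
    · exact hS (hP.1 hp)
  · intro p hp p' hp' v hv ha hb
    rw [Finset.mem_insert] at hp hp'
    rcases hp with rfl | hp
    · rcases hp' with rfl | hp'
      · rfl
      · exact (h2 p' hp' v hv hb ha).elim
    · rcases hp' with rfl | hp'
      · exact (h2 p hp v hv ha hb).elim
      · by_cases hvS : v ∈ S
        · exact hP.2 p hp p' hp' v hvS ha hb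
        · refine h1 v hv hvS p hp p' hp' ?_ ?_
          · exact ha.resolve_left (fun h => hvS (h ▸ hP.1 hp))
          · exact hb.resolve_left (fun h => hvS (h ▸ hP.1 hp'))

omit [Fintype V] in
/-- soundness -/
theorem sound {G : SimpleGraph V} {S D P : Finset V} (h : Constructible G S D P) :
    D ⊆ S ∧ (∀ v ∈ S, v ∉ D → ∃ d ∈ D, G.Adj v d) ∧ IsTwoPacking G S P ∧ P.card = D.card ∧
    (∀ d ∈ D, ∃ a ∈ S, ∃ b ∈ S, a ≠ b ∧ a ∉ D ∧ b ∉ D ∧ G.Adj d a ∧ G.Adj d b) := by
  induction h with
  | base x y z q hyz hxy hxz hnyz hq =>
    refine ⟨by simp, ?_, ⟨?_, ?_⟩, by simp, ?_⟩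
    · intro v hv hvx
      simp only [Finset.mem_insert, Finset.mem_singleton] at hv hvx
      refine ⟨x, by simp, ?_⟩
      rcases hv with rfl | rfl | rfl
      · exact absurd rfl hvx
      · exact hxy.symm
      · exact hxz.symm
    · intro p hp
      rw [Finset.mem_singleton] at hp
      rw [hp]; exact hq
    · intro p hp p' hp' _ _ _ _
      rw [Finset.mem_singleton] at hp hp'
      rw [hp, hp']
    · intro d hd
      rw [Finset.mem_singleton] at hd
      subst hd
      refine ⟨y, by simp, z, by simp, hyz, ?_, ?_, hxy, hxz⟩
      · rw [Finset.mem_singleton]; exact hxy.ne.symm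
      · rw [Finset.mem_singleton]; exact hxz.ne.symm
  | addLeaf S D P u y _ hu hy hadj ih =>
    obtain ⟨hDS, hdom, hpack, hcard, htwo⟩ := ih
    refine ⟨fun d hd => Finset.mem_insert_of_mem (hDS hd), ?_, ⟨?_, ?_⟩, hcard, ?_⟩
    · intro v hv hvD
      rw [Finset.mem_insert] at hv
      rcases hv with rfl | hv
      · exact ⟨u, hu, ((hadj u (hDS hu)).2 rfl).symm⟩
      · exact hdom v hv hvD
    · intro p hp
      exact Finset.mem_insert_of_mem (hpack.1 hp)
    · intro p hp p' hp' v hv ha hb
      rw [Finset.mem_insert] at hv
      rcases hv with rfl | hv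
      · have e1 : p = u := by
          rcases ha with h | h
          · exact absurd (h ▸ hpack.1 hp) hy
          · exact (hadj p (hpack.1 hp)).1 h.symm
        have e2 : p' = u := by
          rcases hb with h | h
          · exact absurd (h ▸ hpack.1 hp') hy
          · exact (hadj p' (hpack.1 hp')).1 h.symm
        rw [e1, e2]
      · exact hpack.2 p hp p' hp' v hv ha hb
    · intro d hd
      obtain ⟨a, ha, b, hb, h⟩ := htwo d hd
      exact ⟨a, Finset.mem_insert_of_mem ha, b, Finset.mem_insert_of_mem hb, h⟩
  | addEdge S D P u x y q _ huS huD hx hy hxy hadx hady hq ih =>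
    obtain ⟨hDS, hdom, hpack, hcard, htwo⟩ := ih
    have hux : G.Adj u x := (hadx u huS).2 rfl
    have hxD : x ∉ D := fun h => hx (hDS h)
    have hyD : y ∉ D := fun h => hy (hDS h)
    have hPS := hpack.1
    have hxP : x ∉ P := fun h => hx (hPS h)
    have hyP : y ∉ P := fun h => hy (hPS h)
    have hqnP : q ∉ P := by
      rcases hq with ⟨rfl, _⟩ | ⟨rfl, _⟩
      · exact hxP
      · exact hyP
    refine ⟨?_, ?_, ?_, ?_, ?_⟩
    · intro d hd
      simp only [Finset.mem_union, Finset.mem_insert, Finset.mem_singleton] at hd ⊢
      rcases hd with rfl | hd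
      · simp
      · exact Or.inl (hDS hd)
    · intro v hv hvD
      simp only [Finset.mem_union, Finset.mem_insert, Finset.mem_singleton, not_or] at hv hvD
      rcases hv with hv | rfl | rfl
      · obtain ⟨d, hd, h⟩ := hdom v hv hvD.2
        exact ⟨d, Finset.mem_insert_of_mem hd, h⟩
      · exact absurd rfl hvD.1
      · exact ⟨x, Finset.mem_insert_self _ _, hxy.symm⟩
    · apply pack_insert hpack Finset.subset_union_left
      · rcases hq with ⟨rfl, _⟩ | ⟨rfl, _⟩ <;> simp
      · intro v hv hvS p hp p' hp' ha hb
        simp only [Finset.mem_union, Finset.mem_insert, Finset.mem_singleton] at hv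
        rcases hv with hv | rfl | rfl
        · exact absurd hv hvS
        · rw [(hadx p (hPS hp)).1 ha.symm, (hadx p' (hPS hp')).1 hb.symm]
        · exact absurd ha.symm (hady p (hPS hp))
      · intro p hp v hv ha hb
        simp only [Finset.mem_union, Finset.mem_insert, Finset.mem_singleton] at hv
        rcases hq with ⟨rfl, hf⟩ | ⟨rfl, hf⟩
        · rcases hv with hv | rfl | rfl
          · have hvu : v = u := by
              rcases hb with h | h
              · exact absurd (h ▸ hv) hx
              · exact (hadx v hv).1 h
            subst hvu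
            rcases ha with h | h
            · exact hf.1 (h ▸ hp)
            · exact hf.2 p hp h
          · rcases ha with h | h
            · exact hxP (h ▸ hp)
            · have := (hadx p (hPS hp)).1 h.symm
              exact hf.1 (this ▸ hp)
          · rcases ha with h | h
            · exact hyP (h ▸ hp)
            · exact hady p (hPS hp) h.symm
        · rcases hv with hv | rfl | rfl
          · rcases hb with h | h
            · exact hy (h ▸ hv)
            · exact hady v hv h
          · rcases ha with h | h
            · exact hxP (h ▸ hp)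
            · have := (hadx p (hPS hp)).1 h.symm
              exact hf (this ▸ hp)
          · rcases ha with h | h
            · exact hyP (h ▸ hp)
            · exact hady p (hPS hp) h.symm
    · rw [Finset.card_insert_of_notMem hqnP, Finset.card_insert_of_notMem hxD, hcard]
    · intro d hd
      rw [Finset.mem_insert] at hd
      rcases hd with rfl | hd
      · refine ⟨u, by simp [huS], y, by simp, ?_, ?_, ?_, hux.symm, hxy⟩
        · rintro rfl; exact hy huS
        · rw [Finset.mem_insert, not_or]; exact ⟨hux.ne, huD⟩
        · rw [Finset.mem_insert, not_or]; exact ⟨hxy.ne.symm, hyD⟩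
      · obtain ⟨a, ha, b, hb, hab, haD, hbD, h⟩ := htwo d hd
        refine ⟨a, Finset.mem_union_left _ ha, b, Finset.mem_union_left _ hb, hab, ?_, ?_, h⟩
        · rw [Finset.mem_insert, not_or]; exact ⟨fun h => hx (h ▸ ha), haD⟩
        · rw [Finset.mem_insert, not_or]; exact ⟨fun h => hx (h ▸ hb), hbD⟩
  | addStar S D P u x y z _ huD huP hx hy hz hyz hxy hxz hnyz hadx hady hadz ih =>
    obtain ⟨hDS, hdom, hpack, hcard, htwo⟩ := ih
    have huS := hDS huD
    have hux : G.Adj u x := (hadx u huS).2 rfl
    have hxD : x ∉ D := fun h => hx (hDS h)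
    have hyD : y ∉ D := fun h => hy (hDS h)
    have hzD : z ∉ D := fun h => hz (hDS h)
    have hPS := hpack.1
    have hxP : x ∉ P := fun h => hx (hPS h)
    have hyP : y ∉ P := fun h => hy (hPS h)
    have hzP : z ∉ P := fun h => hz (hPS h)
    refine ⟨?_, ?_, ?_, ?_, ?_⟩
    · intro d hd
      simp only [Finset.mem_union, Finset.mem_insert, Finset.mem_singleton] at hd ⊢
      rcases hd with rfl | hd
      · simp
      · exact Or.inl (hDS hd)
    · intro v hv hvD
      simp only [Finset.mem_union, Finset.mem_insert, Finset.mem_singleton, not_or] at hv hvD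
      rcases hv with hv | rfl | rfl | rfl
      · obtain ⟨d, hd, h⟩ := hdom v hv hvD.2
        exact ⟨d, Finset.mem_insert_of_mem hd, h⟩
      · exact absurd rfl hvD.1
      · exact ⟨x, Finset.mem_insert_self _ _, hxy.symm⟩
      · exact ⟨x, Finset.mem_insert_self _ _, hxz.symm⟩
    · apply pack_insert hpack Finset.subset_union_left
      · simp
      · intro v hv hvS p hp p' hp' ha hb
        simp only [Finset.mem_union, Finset.mem_insert, Finset.mem_singleton] at hv
        rcases hv with hv | rfl | rfl | rfl
        · exact absurd hv hvS
        · rw [(hadx p (hPS hp)).1 ha.symm, (hadx p' (hPS hp')).1 hb.symm]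
        · exact absurd ha.symm (hady p (hPS hp))
        · exact absurd ha.symm (hadz p (hPS hp))
      · intro p hp v hv ha hb
        simp only [Finset.mem_union, Finset.mem_insert, Finset.mem_singleton] at hv
        rcases hv with hv | rfl | rfl | rfl
        · rcases hb with h | h
          · exact hy (h ▸ hv)
          · exact hady v hv h
        · rcases ha with h | h
          · exact hxP (h ▸ hp)
          · have := (hadx p (hPS hp)).1 h.symm
            exact huP (this ▸ hp)
        · rcases ha with h | h
          · exact hyP (h ▸ hp)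
          · exact hady p (hPS hp) h.symm
        · rcases ha with h | h
          · exact hzP (h ▸ hp)
          · exact hadz p (hPS hp) h.symm
    · rw [Finset.card_insert_of_notMem hyP, Finset.card_insert_of_notMem hxD, hcard]
    · intro d hd
      rw [Finset.mem_insert] at hd
      rcases hd with rfl | hd
      · refine ⟨y, by simp, z, by simp, hyz, ?_, ?_, hxy, hxz⟩
        · rw [Finset.mem_insert, not_or]; exact ⟨hxy.ne.symm, hyD⟩
        · rw [Finset.mem_insert, not_or]; exact ⟨hxz.ne.symm, hzD⟩
      · obtain ⟨a, ha, b, hb, hab, haD, hbD, h⟩ := htwo d hd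
        refine ⟨a, Finset.mem_union_left _ ha, b, Finset.mem_union_left _ hb, hab, ?_, ?_, h⟩
        · rw [Finset.mem_insert, not_or]; exact ⟨fun h => hx (h ▸ ha), haD⟩
        · rw [Finset.mem_insert, not_or]; exact ⟨fun h => hx (h ▸ hb), hbD⟩
  | addPath S D P u x y z q _ huS huD hx hy hz hyz hxy hxz hnyz hady hadx hadz hq ih =>
    obtain ⟨hDS, hdom, hpack, hcard, htwo⟩ := ih
    have huy : G.Adj u y := (hady u huS).2 rfl
    have hxD : x ∉ D := fun h => hx (hDS h)
    have hyD : y ∉ D := fun h => hy (hDS h)
    have hzD : z ∉ D := fun h => hz (hDS h)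
    have hPS := hpack.1
    have hxP : x ∉ P := fun h => hx (hPS h)
    have hyP : y ∉ P := fun h => hy (hPS h)
    have hzP : z ∉ P := fun h => hz (hPS h)
    have hqnP : q ∉ P := by
      rcases hq with ⟨rfl, _⟩ | ⟨rfl, _⟩ | rfl
      · exact hyP
      · exact hxP
      · exact hzP
    refine ⟨?_, ?_, ?_, ?_, ?_⟩
    · intro d hd
      simp only [Finset.mem_union, Finset.mem_insert, Finset.mem_singleton] at hd ⊢
      rcases hd with rfl | hd
      · simp
      · exact Or.inl (hDS hd)
    · intro v hv hvD
      simp only [Finset.mem_union, Finset.mem_insert, Finset.mem_singleton, not_or] at hv hvD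
      rcases hv with hv | rfl | rfl | rfl
      · obtain ⟨d, hd, h⟩ := hdom v hv hvD.2
        exact ⟨d, Finset.mem_insert_of_mem hd, h⟩
      · exact absurd rfl hvD.1
      · exact ⟨x, Finset.mem_insert_self _ _, hxy.symm⟩
      · exact ⟨x, Finset.mem_insert_self _ _, hxz.symm⟩
    · apply pack_insert hpack Finset.subset_union_left
      · rcases hq with ⟨rfl, _⟩ | ⟨rfl, _⟩ | rfl <;> simp
      · intro v hv hvS p hp p' hp' ha hb
        simp only [Finset.mem_union, Finset.mem_insert, Finset.mem_singleton] at hv
        rcases hv with hv | rfl | rfl | rfl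
        · exact absurd hv hvS
        · exact absurd ha.symm (hadx p (hPS hp))
        · rw [(hady p (hPS hp)).1 ha.symm, (hady p' (hPS hp')).1 hb.symm]
        · exact absurd ha.symm (hadz p (hPS hp))
      · intro p hp v hv ha hb
        simp only [Finset.mem_union, Finset.mem_insert, Finset.mem_singleton] at hv
        have hvx : v = x → False := by
          rintro rfl
          rcases ha with h | h
          · exact hxP (h ▸ hp)
          · exact hadx p (hPS hp) h.symm
        have hvz : v = z → False := by
          rintro rfl
          rcases ha with h | h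
          · exact hzP (h ▸ hp)
          · exact hadz p (hPS hp) h.symm
        rcases hv with hv | h | h | h
        · rcases hq with ⟨rfl, hf⟩ | ⟨rfl, hf⟩ | rfl
          · have hvu : v = u := by
              rcases hb with h | h
              · exact absurd (h ▸ hv) hy
              · exact (hady v hv).1 h
            subst hvu
            rcases ha with h | h
            · exact hf.1 (h ▸ hp)
            · exact hf.2 p hp h
          · rcases hb with h | h
            · exact hx (h ▸ hv)
            · exact hadx v hv h
          · rcases hb with h | h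
            · exact hz (h ▸ hv)
            · exact hadz v hv h
        · exact hvx h
        · subst h
          have hpu : p = u := by
            rcases ha with h | h
            · exact absurd (h ▸ hp) hyP
            · exact (hady p (hPS hp)).1 h.symm
          subst hpu
          rcases hq with ⟨rfl, hf⟩ | ⟨rfl, hf⟩ | rfl
          · exact hf.1 hp
          · exact hf hp
          · rcases hb with h | h
            · exact hyz h
            · exact hnyz h
        · exact hvz h
    · rw [Finset.card_insert_of_notMem hqnP, Finset.card_insert_of_notMem hxD, hcard]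
    · intro d hd
      rw [Finset.mem_insert] at hd
      rcases hd with rfl | hd
      · refine ⟨y, by simp, z, by simp, hyz, ?_, ?_, hxy, hxz⟩
        · rw [Finset.mem_insert, not_or]; exact ⟨hxy.ne.symm, hyD⟩
        · rw [Finset.mem_insert, not_or]; exact ⟨hxz.ne.symm, hzD⟩
      · obtain ⟨a, ha, b, hb, hab, haD, hbD, h⟩ := htwo d hd
        refine ⟨a, Finset.mem_union_left _ ha, b, Finset.mem_union_left _ hb, hab, ?_, ?_, h⟩
        · rw [Finset.mem_insert, not_or]; exact ⟨fun h => hx (h ▸ ha), haD⟩
        · rw [Finset.mem_insert, not_or]; exact ⟨fun h => hx (h ▸ hb), hbD⟩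

/-- the graph `G` restricted to `S` (all other vertices isolated) -/
def restr (G : SimpleGraph V) (S : Finset V) : SimpleGraph V where
  Adj u v := G.Adj u v ∧ u ∈ S ∧ v ∈ S
  symm := ⟨fun _ _ h => ⟨h.1.symm, h.2.2, h.2.1⟩⟩
  loopless := ⟨fun _ h => G.loopless.1 _ h.1⟩

/-- the restriction to `S` is a tree -/
def TreeOn (G : SimpleGraph V) (S : Finset V) : Prop :=
  S.Nonempty ∧ (restr G S).IsAcyclic ∧ ∀ a ∈ S, ∀ b ∈ S, (restr G S).Reachable a b

omit [Fintype V] in
theorem TreeOn.addVertex {G : SimpleGraph V} {S : Finset V} {u x : V} (hT : TreeOn G S) (hu : u ∈ S)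
    (hx : x ∉ S) (hadj : ∀ s ∈ S, G.Adj s x ↔ s = u) : TreeOn G (insert x S) := by
  have hux : G.Adj u x := (hadj u hu).2 rfl
  have heq : restr G (insert x S) = restr G S ⊔ SimpleGraph.edge u x := by
    ext a b
    rw [SimpleGraph.sup_adj, SimpleGraph.edge_adj]
    simp only [restr, Finset.mem_insert]
    constructor
    · rintro ⟨hab, ha, hb⟩
      rcases ha with rfl | ha
      · rcases hb with rfl | hb
        · exact absurd rfl hab.ne
        · right
          exact ⟨Or.inr ⟨rfl, (hadj b hb).1 hab.symm⟩, hab.ne⟩
      · rcases hb with rfl | hb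
        · right
          exact ⟨Or.inl ⟨(hadj a ha).1 hab, rfl⟩, hab.ne⟩
        · exact Or.inl ⟨hab, ha, hb⟩
    · rintro (⟨hab, ha, hb⟩ | ⟨⟨rfl, rfl⟩ | ⟨rfl, rfl⟩, _⟩)
      · exact ⟨hab, Or.inr ha, Or.inr hb⟩
      · exact ⟨hux, Or.inr hu, Or.inl rfl⟩
      · exact ⟨hux.symm, Or.inl rfl, Or.inr hu⟩
  have hnr : ¬ (restr G S).Reachable u x := by
    rintro ⟨w⟩
    cases w.reverse with
    | nil => exact hx hu
    | cons h _ => exact hx h.2.1
  have hle : restr G S ≤ restr G (insert x S) := by
    rw [heq]; exact le_sup_left
  have hxu : (restr G (insert x S)).Reachable x u :=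
    SimpleGraph.Adj.reachable ⟨hux.symm, Finset.mem_insert_self _ _, Finset.mem_insert_of_mem hu⟩
  refine ⟨⟨x, Finset.mem_insert_self _ _⟩, ?_, ?_⟩
  · rw [heq]
    exact SimpleGraph.IsAcyclic.sup_edge_of_not_reachable hnr hT.2.1
  · intro a ha b hb
    rw [Finset.mem_insert] at ha hb
    have key : ∀ a, a = x ∨ a ∈ S → (restr G (insert x S)).Reachable a u := by
      rintro a (rfl | ha)
      · exact hxu
      · exact (hT.2.2 a ha u hu).mono hle
    exact (key a ha).trans (key b hb).symm

omit [Fintype V] in
theorem treeOn {G : SimpleGraph V} {S D P : Finset V} (h : Constructible G S D P) : TreeOn G S := by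
  induction h with
  | base x y z q hyz hxy hxz hnyz _ =>
    have h0 : TreeOn G {x} := by
      refine ⟨⟨x, Finset.mem_singleton_self x⟩, ?_, ?_⟩
      · have : restr G {x} = ⊥ := by
          ext a b
          simp only [restr, Finset.mem_singleton, SimpleGraph.bot_adj, iff_false]
          rintro ⟨hab, rfl, rfl⟩
          exact hab.ne rfl
        rw [this]
        exact SimpleGraph.isAcyclic_bot
      · intro a ha b hb
        rw [Finset.mem_singleton] at ha hb
        rw [ha, hb]
    have h1 : TreeOn G (insert z {x}) := by
      refine h0.addVertex (u := x) (Finset.mem_singleton_self x) ?_ ?_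
      · rw [Finset.mem_singleton]; exact hxz.ne.symm
      · intro s hs
        rw [Finset.mem_singleton] at hs
        subst hs
        exact ⟨fun _ => rfl, fun _ => hxz⟩
    have h2 : TreeOn G (insert y (insert z {x})) := by
      refine h1.addVertex (u := x) (by simp) ?_ ?_
      · simp only [Finset.mem_insert, Finset.mem_singleton, not_or]
        exact ⟨hyz, hxy.ne.symm⟩
      · intro s hs
        simp only [Finset.mem_insert, Finset.mem_singleton] at hs
        rcases hs with rfl | rfl
        · exact ⟨fun h => absurd h.symm hnyz, fun h => absurd h hxz.ne.symm⟩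
        · exact ⟨fun _ => rfl, fun _ => hxy⟩
    have e : ({x, y, z} : Finset V) = insert y (insert z {x}) := by
      ext a; simp only [Finset.mem_insert, Finset.mem_singleton]; tauto
    rw [e]; exact h2
  | addLeaf S D P u y hC hu hy hadj ih =>
    exact ih.addVertex ((sound hC).1 hu) hy hadj
  | addEdge S D P u x y q hC huS huD hx hy hxy hadx hady hq ih =>
    have h1 := ih.addVertex huS hx hadx
    have h2 : TreeOn G (insert y (insert x S)) := by
      refine h1.addVertex (u := x) (Finset.mem_insert_self _ _) ?_ ?_
      · rw [Finset.mem_insert, not_or]; exact ⟨hxy.ne.symm, hy⟩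
      · intro s hs
        rw [Finset.mem_insert] at hs
        rcases hs with rfl | hs
        · exact ⟨fun _ => rfl, fun _ => hxy⟩
        · exact ⟨fun h => absurd h (hady s hs), fun h => absurd (h ▸ hs) hx⟩
    have e : S ∪ ({x, y} : Finset V) = insert y (insert x S) := by
      ext a; simp only [Finset.mem_union, Finset.mem_insert, Finset.mem_singleton]; tauto
    rw [e]; exact h2
  | addStar S D P u x y z hC huD huP hx hy hz hyz hxy hxz hnyz hadx hady hadz ih =>
    have h1 := ih.addVertex ((sound hC).1 huD) hx hadx
    have h2 : TreeOn G (insert y (insert x S)) := by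
      refine h1.addVertex (u := x) (Finset.mem_insert_self _ _) ?_ ?_
      · rw [Finset.mem_insert, not_or]; exact ⟨hxy.ne.symm, hy⟩
      · intro s hs
        rw [Finset.mem_insert] at hs
        rcases hs with rfl | hs
        · exact ⟨fun _ => rfl, fun _ => hxy⟩
        · exact ⟨fun h => absurd h (hady s hs), fun h => absurd (h ▸ hs) hx⟩
    have h3 : TreeOn G (insert z (insert y (insert x S))) := by
      refine h2.addVertex (u := x) (by simp) ?_ ?_
      · simp only [Finset.mem_insert, not_or]; exact ⟨hyz.symm, hxz.ne.symm, hz⟩
      · intro s hs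
        simp only [Finset.mem_insert] at hs
        rcases hs with rfl | rfl | hs
        · exact ⟨fun h => absurd h hnyz, fun h => absurd h hxy.ne.symm⟩
        · exact ⟨fun _ => rfl, fun _ => hxz⟩
        · exact ⟨fun h => absurd h (hadz s hs), fun h => absurd (h ▸ hs) hx⟩
    have e : S ∪ ({x, y, z} : Finset V) = insert z (insert y (insert x S)) := by
      ext a; simp only [Finset.mem_union, Finset.mem_insert, Finset.mem_singleton]; tauto
    rw [e]; exact h3
  | addPath S D P u x y z q hC huS huD hx hy hz hyz hxy hxz hnyz hady hadx hadz hq ih =>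
    have h1 := ih.addVertex huS hy hady
    have h2 : TreeOn G (insert x (insert y S)) := by
      refine h1.addVertex (u := y) (Finset.mem_insert_self _ _) ?_ ?_
      · rw [Finset.mem_insert, not_or]; exact ⟨hxy.ne, hx⟩
      · intro s hs
        rw [Finset.mem_insert] at hs
        rcases hs with rfl | hs
        · exact ⟨fun _ => rfl, fun _ => hxy.symm⟩
        · exact ⟨fun h => absurd h (hadx s hs), fun h => absurd (h ▸ hs) hy⟩
    have h3 : TreeOn G (insert z (insert x (insert y S))) := by
      refine h2.addVertex (u := x) (by simp) ?_ ?_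
      · simp only [Finset.mem_insert, not_or]; exact ⟨hxz.ne.symm, hyz.symm, hz⟩
      · intro s hs
        simp only [Finset.mem_insert] at hs
        rcases hs with rfl | rfl | hs
        · exact ⟨fun _ => rfl, fun _ => hxz⟩
        · exact ⟨fun h => absurd h hnyz, fun h => absurd h hxy.ne.symm⟩
        · exact ⟨fun h => absurd h (hadz s hs), fun h => absurd (h ▸ hs) hx⟩
    have e : S ∪ ({x, y, z} : Finset V) = insert z (insert x (insert y S)) := by
      ext a; simp only [Finset.mem_union, Finset.mem_insert, Finset.mem_singleton]; tauto
    rw [e]; exact h3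

theorem isTree_of_constructible {G : SimpleGraph V} {D P : Finset V}
    (h : Constructible G Finset.univ D P) : G.IsTree := by
  have hT := treeOn h
  have e : restr G Finset.univ = G := by
    ext a b
    simp only [restr, Finset.mem_univ, and_true]
  rw [TreeOn, e] at hT
  obtain ⟨⟨r, _⟩, hac, hre⟩ := hT
  have : Nonempty V := ⟨r⟩
  exact ⟨⟨fun a b => hre a (Finset.mem_univ a) b (Finset.mem_univ b)⟩, hac⟩

omit [Fintype V] in
/-- passing from the global packing condition to the local one -/
theorem localize {G : SimpleGraph V} {S D P : Finset V} (h : Constr0 G S D P) :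
    Constructible G S D P := by
  induction h with
  | base x y z q hyz hxy hxz hnyz hq =>
    refine Constructible.base x y z q hyz hxy hxz hnyz ?_
    rcases hq with rfl | rfl <;> simp
  | addLeaf S D P u y _ hu hy hadj ih => exact Constructible.addLeaf S D P u y ih hu hy hadj
  | addEdge S D P u x y q _ huS huD hx hy hxy hadx hady hq hpk ih =>
    have hux : G.Adj u x := (hadx u huS).2 rfl
    have hPS := (sound ih).2.2.1.1
    refine Constructible.addEdge S D P u x y q ih huS huD hx hy hxy hadx hady ?_
    rw [Finset.mem_insert, Finset.mem_singleton] at hq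
    rcases hq with rfl | rfl
    · left
      refine ⟨rfl, fun hu => ?_, fun p hp hup => ?_⟩
      · have := hpk.2 u (Finset.mem_insert_of_mem hu) q (Finset.mem_insert_self _ _) u
          (Finset.mem_union_left _ huS) (Or.inl rfl) (Or.inr hux)
        exact hx (this ▸ huS)
      · have := hpk.2 p (Finset.mem_insert_of_mem hp) q (Finset.mem_insert_self _ _) u
          (Finset.mem_union_left _ huS) (Or.inr hup) (Or.inr hux)
        exact hx (this ▸ hPS hp)
    · right
      refine ⟨rfl, fun hu => ?_⟩
      have := hpk.2 u (Finset.mem_insert_of_mem hu) q (Finset.mem_insert_self _ _) x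
          (by simp) (Or.inr hux.symm) (Or.inr hxy)
      exact hy (this ▸ huS)
  | addStar S D P u x y z q _ huD hx hy hz hyz hxy hxz hnyz hadx hady hadz hq hpk ih =>
    obtain ⟨hDS, hdom, hpack, hcard, htwo⟩ := sound ih
    have hPS := hpack.1
    have huS := hDS huD
    have hux : G.Adj u x := (hadx u huS).2 rfl
    have hV := valid_of_card hDS hdom hpack hcard.ge htwo
    rw [Finset.mem_insert, Finset.mem_insert, Finset.mem_singleton] at hq
    rcases hq with rfl | rfl | rfl
    · exfalso
      obtain ⟨p, hp, hup⟩ := hV.exP u huD
      have := hpk.2 p (Finset.mem_insert_of_mem hp) q (Finset.mem_insert_self _ _) u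
          (Finset.mem_union_left _ huS) hup (Or.inr hux)
      exact hx (this ▸ hPS hp)
    · refine Constructible.addStar S D P u x q z ih huD ?_ hx hy hz hyz hxy hxz hnyz hadx hady hadz
      intro hu
      have := hpk.2 u (Finset.mem_insert_of_mem hu) q (Finset.mem_insert_self _ _) x
          (by simp) (Or.inr hux.symm) (Or.inr hxy)
      exact hy (this ▸ huS)
    · have h2 := Constructible.addStar S D P u x q y ih huD ?_ hx hz hy hyz.symm hxz hxy
        (fun h => hnyz h.symm) hadx hadz hady
      · have e : ({x, y, q} : Finset V) = {x, q, y} := by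
          rw [Finset.pair_comm]
        rw [e]; exact h2
      · intro hu
        have := hpk.2 u (Finset.mem_insert_of_mem hu) q (Finset.mem_insert_self _ _) x
            (by simp) (Or.inr hux.symm) (Or.inr hxz)
        exact hz (this ▸ huS)
  | addPath S D P u x y z q _ huS huD hx hy hz hyz hxy hxz hnyz hadz hadx hady hq hpk ih =>
    have huz : G.Adj u z := (hadz u huS).2 rfl
    have hPS := (sound ih).2.2.1.1
    have h2 := Constructible.addPath S D P u x z y q ih huS huD hx hz hy hyz.symm hxz hxy
      (fun h => hnyz h.symm) hadz hadx hady ?_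
    · have e : ({x, y, z} : Finset V) = {x, z, y} := by
        rw [Finset.pair_comm]
      rw [e]; exact h2
    · rw [Finset.mem_insert, Finset.mem_insert, Finset.mem_singleton] at hq
      rcases hq with rfl | rfl | rfl
      · right; left
        refine ⟨rfl, fun hu => ?_⟩
        have := hpk.2 u (Finset.mem_insert_of_mem hu) q (Finset.mem_insert_self _ _) z
          (by simp) (Or.inr huz.symm) (Or.inr hxz.symm)
        exact hx (this ▸ huS)
      · right; right; rfl
      · left
        refine ⟨rfl, fun hu => ?_, fun p hp hup => ?_⟩
        · have := hpk.2 u (Finset.mem_insert_of_mem hu) q (Finset.mem_insert_self _ _) u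
            (Finset.mem_union_left _ huS) (Or.inl rfl) (Or.inr huz)
          exact hz (this ▸ huS)
        · have := hpk.2 p (Finset.mem_insert_of_mem hp) q (Finset.mem_insert_self _ _) u
            (Finset.mem_union_left _ huS) (Or.inr hup) (Or.inr huz)
          exact hz (this ▸ hPS hp)

omit [Fintype V] in
theorem card_le_of_packing {G : SimpleGraph V} {S D P : Finset V} (hP : IsTwoPacking G S P) (hDS : D ⊆ S)
    (hdom : ∀ v ∈ P, v ∉ D → ∃ d ∈ D, G.Adj v d) : P.card ≤ D.card := by
  obtain ⟨f, hf, hinj⟩ := pack_le_dom hP hDS hdom
  exact Finset.card_le_card_of_injOn f (fun p hp => (hf p hp).1) hinj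

theorem isCertified_univ (G : SimpleGraph V) : IsCertified G Finset.univ := by
  refine ⟨fun v hv => absurd (Finset.mem_univ v) hv, fun v _ => Or.inl ?_⟩
  simp

omit [DecidableEq V] in
theorem gamma_le {G : SimpleGraph V} {D : Finset V} (hD : IsDominating G D) : gamma G ≤ D.card :=
  Nat.sInf_le ⟨D, hD, rfl⟩

omit [DecidableEq V] in
theorem gammaCer_le {G : SimpleGraph V} {D : Finset V} (hD : IsCertified G D) : gammaCer G ≤ D.card :=
  Nat.sInf_le ⟨D, hD, rfl⟩

omit [DecidableEq V] in
theorem exists_gammaCer (G : SimpleGraph V) : ∃ D : Finset V, IsCertified G D ∧ D.card = gammaCer G := by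
  classical
  have : gammaCer G ∈ {k | ∃ D : Finset V, IsCertified G D ∧ D.card = k} :=
    Nat.sInf_mem ⟨_, Finset.univ, isCertified_univ G, rfl⟩
  exact this

omit [DecidableEq V] in
theorem exists_gamma (G : SimpleGraph V) : ∃ D : Finset V, IsDominating G D ∧ D.card = gamma G := by
  classical
  have : gamma G ∈ {k | ∃ D : Finset V, IsDominating G D ∧ D.card = k} :=
    Nat.sInf_mem ⟨_, Finset.univ, (isCertified_univ G).1, rfl⟩
  exact this

theorem constructible_of_eq {G : SimpleGraph V} (hG : G.IsTree) (hV1 : Fintype.card V ≠ 1)
    {D : Finset V} (hD : IsCertified G D) (hDc : D.card = gamma G) :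
    ∃ P : Finset V, Constructible G Finset.univ D P := by
  classical
  have : Nonempty V := hG.connected.nonempty
  have : Nontrivial V := by
    rw [← Fintype.one_lt_card_iff_nontrivial]
    have : 0 < Fintype.card V := Fintype.card_pos
    omega
  obtain ⟨r⟩ := (inferInstance : Nonempty V)
  obtain ⟨par, dep, hR⟩ := exists_rooted hG r
  have htwo : ∀ d ∈ D, ∃ a ∈ (Finset.univ : Finset V), ∃ b ∈ (Finset.univ : Finset V),
      a ≠ b ∧ a ∉ D ∧ b ∉ D ∧ G.Adj d a ∧ G.Adj d b := by
    intro d hd
    rcases hD.2 d hd with h0 | h2
    · exfalso
      rw [Set.ncard_eq_zero (Set.toFinite _)] at h0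
      have hnb : ∀ u, G.Adj d u → u ∈ D := by
        intro u hu
        by_contra hu2
        have : u ∈ ({u | G.Adj d u ∧ u ∉ D} : Set V) := ⟨hu, hu2⟩
        rw [h0] at this
        exact this
      have hdom : IsDominating G (D.erase d) := by
        intro v hv
        by_cases hvd : v = d
        · subst hvd
          obtain ⟨w, hw⟩ := hG.connected.preconnected.exists_adj_of_nontrivial v
          exact ⟨w, Finset.mem_erase.2 ⟨hw.ne.symm, hnb w hw⟩, hw⟩
        · have hvD : v ∉ D := fun h => hv (Finset.mem_erase.2 ⟨hvd, h⟩)
          obtain ⟨w, hw, hadj⟩ := hD.1 v hvD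
          refine ⟨w, Finset.mem_erase.2 ⟨?_, hw⟩, hadj⟩
          rintro rfl
          exact hvD (hnb v hadj.symm)
      have h1 := gamma_le hdom
      have h2 := Finset.card_erase_lt_of_mem hd
      omega
    · have : 1 < {u | G.Adj d u ∧ u ∉ D}.ncard := h2
      rw [Set.one_lt_ncard (Set.toFinite _)] at this
      obtain ⟨a, ⟨ha, haD⟩, b, ⟨hb, hbD⟩, hab⟩ := this
      exact ⟨a, Finset.mem_univ _, b, Finset.mem_univ _, hab, haD, hbD, ha, hb⟩
  have hcl : Closed r par Finset.univ := ⟨Finset.mem_univ _, fun v _ _ => Finset.mem_univ _⟩
  obtain ⟨D0, P, _, hP, hdom0, hpack, hle⟩ := meir_moon hR _ Finset.univ Finset.univ rfl hcl (Finset.Subset.refl _)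
  have hdomD0 : IsDominating G D0 := by
    intro v hv
    obtain ⟨d, hd, h⟩ := hdom0 v (Finset.mem_univ _)
    rcases h with rfl | h
    · exact absurd hd hv
    · exact ⟨d, hd, h.symm⟩
  have h3 := gamma_le hdomD0
  have hV : Valid G Finset.univ D P := by
    apply valid_of_card (Finset.subset_univ _) (fun v _ hv => hD.1 v hv) ⟨hP, hpack⟩ _ htwo
    omega
  exact ⟨P, localize (complete hR _ _ D P rfl hcl hV)⟩

theorem gamma_single {G : SimpleGraph V} (h1 : Fintype.card V = 1) : gammaCer G = gamma G := by
  apply le_antisymm
  · obtain ⟨D', hD', hc⟩ := exists_gamma G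
    have h2 := gammaCer_le (isCertified_univ G)
    rw [Finset.card_univ, h1] at h2
    have h3 : D'.Nonempty := by
      rw [Finset.nonempty_iff_ne_empty]
      rintro rfl
      have : 0 < Fintype.card V := by omega
      obtain ⟨v⟩ := Fintype.card_pos_iff.1 this
      obtain ⟨d, hd, _⟩ := hD' v (Finset.notMem_empty v)
      exact absurd hd (Finset.notMem_empty d)
    have := Finset.card_pos.2 h3
    omega
  · obtain ⟨D', hD', hc⟩ := exists_gammaCer G
    have := gamma_le hD'.1
    omega

theorem certified_of_constructible {G : SimpleGraph V} {D P : Finset V}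
    (h : Constructible G Finset.univ D P) : IsCertified G D ∧ D.card = gamma G := by
  obtain ⟨_, hdom, hpack, hcard, htwo⟩ := sound h
  have hdomD : IsDominating G D := fun v hv => hdom v (Finset.mem_univ v) hv
  have hcert : IsCertified G D := by
    refine ⟨hdomD, fun v hv => Or.inr ?_⟩
    obtain ⟨a, _, b, _, hab, haD, hbD, hva, hvb⟩ := htwo v hv
    have : 1 < {u | G.Adj v u ∧ u ∉ D}.ncard := by
      rw [Set.one_lt_ncard (Set.toFinite _)]
      exact ⟨a, ⟨hva, haD⟩, b, ⟨hvb, hbD⟩, hab⟩
    exact this
  refine ⟨hcert, le_antisymm ?_ (gamma_le hdomD)⟩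
  obtain ⟨D', hD', hc⟩ := exists_gamma G
  have h1 := card_le_of_packing (D := D') hpack (Finset.subset_univ _)
    (fun v _ hv => hD' v hv)
  omega

theorem gamma_le_gammaCer (G : SimpleGraph V) : gamma G ≤ gammaCer G := by
  obtain ⟨D', hD', hc⟩ := exists_gammaCer G
  have := gamma_le hD'.1
  omega

/-- **Constructive characterization of the trees with equal domination and certified domination
numbers.** A finite simple graph `G` is a tree with `gammaCer G = gamma G` if and only if it has
exactly one vertex or, for some sets `D`, `P` of vertices, it is built from a path on three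
vertices by the four operations of `Constructible`. -/
theorem result {V : Type*} [Fintype V] [DecidableEq V] (G : SimpleGraph V) :
    (G.IsTree ∧ gammaCer G = gamma G) ↔
      (Fintype.card V = 1 ∨ ∃ D P : Finset V, Constructible G Finset.univ D P) := by
  constructor
  · rintro ⟨hG, h⟩
    by_cases h1 : Fintype.card V = 1
    · exact Or.inl h1
    · obtain ⟨D, hD, hDc⟩ := exists_gammaCer G
      exact Or.inr ⟨D, constructible_of_eq hG h1 hD (hDc.trans h)⟩
  · rintro (h1 | ⟨D, P, h⟩)
    · have : Subsingleton V := Fintype.card_le_one_iff_subsingleton.1 h1.le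
      have : Nonempty V := Fintype.card_pos_iff.1 (by omega)
      exact ⟨SimpleGraph.IsTree.of_subsingleton, gamma_single h1⟩
    · obtain ⟨hD, hc⟩ := certified_of_constructible h
      refine ⟨isTree_of_constructible h, le_antisymm ?_ (gamma_le_gammaCer G)⟩
      rw [← hc]
      exact gammaCer_le hD

end Pool.Agent.Results.MP_b206e4_co.TreeCharacterization
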